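import Mathlib
import Pool.Agent.N746.Self.Defs

/-!
# The inequality for the three points `∞, √D, -√D`
-/

namespace Pool.Agent.N746.Tw

open Pool.Agent.N746.Self

/-- the inequality of the abc conjecture for the set `{∞, √D, -√D}` and the rational points `x / y`:
for every `ε > 0` there is `κ` with `max (|x|, |y|) ≤ κ R (y (x ^ 2 - D y ^ 2)) ^ (1 + ε)` for all
coprime integers `x, y` with `y (x ^ 2 - D y ^ 2) ≠ 0` -/
def ThreePoints (D : ℤ) : Prop :=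
  ∀ ε : ℝ, 0 < ε → ∃ κ : ℝ, ∀ x y : ℤ, IsCoprime x y → y * (x ^ 2 - D * y ^ 2) ≠ 0 →
    max |(x : ℝ)| |(y : ℝ)| ≤ κ * (R (y * (x ^ 2 - D * y ^ 2)).natAbs : ℝ) ^ (1 + ε)

/-- the triples given by the solutions of `x ^ 2 - D y ^ 2 = z ^ n`: `a = |D| y ^ 2`, and `b`, `c` are
`x ^ 2` and `|z| ^ n` in some order -/
def Pell (D : ℤ) (n a b c : ℕ) : Prop :=
  ∃ x y z : ℤ, x ^ 2 - D * y ^ 2 = z ^ n ∧ (a : ℤ) = |D| * y ^ 2 ∧
    ({b, c} : Multiset ℕ) = {x.natAbs ^ 2, z.natAbs ^ n}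

end Pool.Agent.N746.Tw
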