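import Mathlib
import Pool.Agent.N746.Tw.Defs
import Pool.Agent.N746.Self.Sigs

/-!
# The maps onto the twisted three point sets
-/

namespace Pool.Agent.N746.Tw

open Finset Pool.Agent.N746.Self

/-- the first two terms of the binomial expansion -/
theorem binom (S E : ℤ) (e : ℕ) (he : 2 ≤ e) :
    ∃ G : ℤ, (S + E) ^ e = E ^ e + e * S * E ^ (e - 1) + S ^ 2 * G ∧
      |G| ≤ 2 ^ e * (|S| + |E|) ^ (e - 2) := by
  induction e, he using Nat.le_induction with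
  | base => exact ⟨1, by push_cast; ring, by norm_num⟩
  | succ e he ih =>
    obtain ⟨G, h1, h2⟩ := ih
    obtain ⟨k, rfl⟩ : ∃ k, e = k + 2 := ⟨e - 2, by omega⟩
    refine ⟨G * (S + E) + (k + 2 : ℕ) * E ^ (k + 1), ?_, ?_⟩
    · rw [pow_succ, h1]
      simp only [show k + 2 - 1 = k + 1 by omega, show k + 2 + 1 - 1 = k + 2 by omega]
      push_cast
      ring
    · simp only [show k + 2 - 2 = k by omega, show k + 2 + 1 - 2 = k + 1 by omega] at h2 ⊢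
      have hM : 0 ≤ |S| + |E| := by positivity
      have h3 : |S + E| ≤ |S| + |E| := abs_add_le _ _
      have h4 : |E| ^ (k + 1) ≤ (|S| + |E|) ^ (k + 1) :=
        pow_le_pow_left₀ (abs_nonneg _) (by have := abs_nonneg S; linarith) _
      have h5 : ((k + 2 : ℕ) : ℤ) ≤ 2 ^ (k + 2) := by exact_mod_cast Nat.lt_two_pow_self.le
      calc |G * (S + E) + (k + 2 : ℕ) * E ^ (k + 1)|
          ≤ |G| * |S + E| + (k + 2 : ℕ) * |E| ^ (k + 1) := by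
            refine (abs_add_le _ _).trans ?_
            rw [abs_mul, abs_mul, abs_pow, Nat.abs_cast]
        _ ≤ (2 ^ (k + 2) * (|S| + |E|) ^ k) * (|S| + |E|) + 2 ^ (k + 2) * (|S| + |E|) ^ (k + 1) := by
            gcongr
        _ = 2 ^ (k + 2 + 1) * (|S| + |E|) ^ (k + 1) := by ring

/-- what the map provides -/
def Src (D : ℤ) (d N₀ : ℕ) (K : ℝ) : Prop :=
  ∀ X Y Z : ℕ, Z + Y = X → 0 < Y → 0 < Z → Nat.Coprime X Y → N₀ ∣ Z → (Z : ℝ) * K ≤ X →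
    ∃ x y z : ℕ, 0 < x ∧ 0 < y ∧ 0 < z ∧ (x : ℤ) ^ 2 - D * (y : ℤ) ^ 2 = (z : ℤ) ^ 2 ∧
      Odd x ∧ Even y ∧ IsCoprime (x : ℤ) (D * y) ∧ Z ∣ N₀ * y ∧
      (X : ℝ) ^ d ≤ K * x ∧ (x : ℝ) ≤ K * (X : ℝ) ^ d ∧ (y : ℝ) * X ≤ K * Z * (X : ℝ) ^ d ∧
      (R (y * z) : ℝ) ≤ K * R (X * Y * Z) * (X : ℝ) ^ (d - 1)

theorem R_le_int {m : ℕ} {w : ℤ} (hm : m ≠ 0) (hw : w ≠ 0) (h : ∀ p : ℕ, p.Prime → p ∣ m → (p : ℤ) ∣ w) :
    (R m : ℝ) ≤ |(w : ℝ)| := by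
  have h1 : R m ≤ R w.natAbs := R_le_of_primes (Int.natAbs_ne_zero.2 hw) fun p hp hpm =>
    Int.natCast_dvd.1 (h p hp hpm)
  have h2 : R w.natAbs ≤ w.natAbs := R_le (Int.natAbs_pos.2 hw)
  calc (R m : ℝ) ≤ ((w.natAbs : ℕ) : ℝ) := by exact_mod_cast h1.trans h2
    _ = |(w : ℝ)| := by rw [Nat.cast_natAbs]; push_cast; rfl

end Pool.Agent.N746.Tw
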