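import Mathlib
import Pool.Agent.N746.Tw.Src

/-!
# Powers of `x + y √D`
-/

namespace Pool.Agent.N746.Tw

open Finset Pool.Agent.N746.Self

theorem powers (D x y : ℤ) (hx : 0 < x) (n : ℕ) (hs : 4 * (n : ℤ) ^ 2 * (|D| * y ^ 2) ≤ x ^ 2) :
    ∀ k : ℕ, 1 ≤ k → k ≤ n → ∃ P U : ℤ, P ^ 2 - D * (y * U) ^ 2 = (x ^ 2 - D * y ^ 2) ^ k ∧
      |P - x ^ k| * x ^ 2 ≤ 2 * (k : ℤ) ^ 2 * (|D| * y ^ 2) * x ^ k ∧ 0 < U ∧
      U ≤ 2 * k * x ^ (k - 1) ∧ x ^ k ≤ 2 * P ∧ P ≤ 2 * x ^ k ∧ D ∣ P - x ^ k ∧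
      (x ^ 2 - D * y ^ 2) ∣ P - 2 ^ (k - 1) * x ^ k ∧
      (x ^ 2 - D * y ^ 2) ∣ U - 2 ^ (k - 1) * x ^ (k - 1) := by
  intro k hk
  induction k, hk using Nat.le_induction with
  | base =>
    intro _
    refine ⟨x, 1, by ring, ?_, by norm_num, by norm_num, by linarith, by linarith, by simp, by simp, by simp⟩
    simp only [pow_one, sub_self, abs_zero, zero_mul]
    positivity
  | succ k hk ih =>
    intro hkn
    obtain ⟨P, U, h1, h2, h3, h4, h5, h6, h7, h8, h9⟩ := ih (by omega)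
    obtain ⟨e, rfl⟩ : ∃ e, k = e + 1 := ⟨k - 1, by omega⟩
    simp only [Nat.add_sub_cancel] at h4 h8 h9 ⊢
    have hB : 0 ≤ |D| * y ^ 2 := by positivity
    have hx2 : 0 < x ^ 2 := by positivity
    have hxe : 0 < x ^ (e + 1) := by positivity
    have hxe2 : 0 < x ^ (e + 1 + 1) := by positivity
    have hxe0 : 0 < x ^ e := by positivity
    have hP0 : 0 < P := by linarith
    have hU' : x * U + P ≤ 2 * ((e + 1 + 1 : ℕ) : ℤ) * x ^ (e + 1) := by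
      have : x * U ≤ x * (2 * ((e + 1 : ℕ) : ℤ) * x ^ e) := mul_le_mul_of_nonneg_left h4 hx.le
      have e1 : x * (2 * ((e + 1 : ℕ) : ℤ) * x ^ e) = 2 * ((e + 1 : ℕ) : ℤ) * x ^ (e + 1) := by ring
      have e2 : 2 * ((e + 1 + 1 : ℕ) : ℤ) * x ^ (e + 1) = 2 * ((e + 1 : ℕ) : ℤ) * x ^ (e + 1) + 2 * x ^ (e + 1) := by
        push_cast; ring
      rw [e2, ← e1]
      linarith
    have hb : |x * P + D * y ^ 2 * U - x ^ (e + 1 + 1)| * x ^ 2 ≤
        2 * ((e + 1 + 1 : ℕ) : ℤ) ^ 2 * (|D| * y ^ 2) * x ^ (e + 1 + 1) := by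
      have e1 : x * P + D * y ^ 2 * U - x ^ (e + 1 + 1) = x * (P - x ^ (e + 1)) + D * y ^ 2 * U := by ring
      have h10 : |x * (P - x ^ (e + 1)) + D * y ^ 2 * U| ≤ x * |P - x ^ (e + 1)| + |D| * y ^ 2 * U := by
        refine (abs_add_le _ _).trans ?_
        rw [abs_mul, abs_mul, abs_mul, abs_of_pos hx, abs_of_pos h3, abs_pow, sq_abs]
      rw [e1]
      calc |x * (P - x ^ (e + 1)) + D * y ^ 2 * U| * x ^ 2
          ≤ (x * |P - x ^ (e + 1)| + |D| * y ^ 2 * U) * x ^ 2 := mul_le_mul_of_nonneg_right h10 hx2.le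
        _ = x * (|P - x ^ (e + 1)| * x ^ 2) + |D| * y ^ 2 * U * x ^ 2 := by ring
        _ ≤ x * (2 * ((e + 1 : ℕ) : ℤ) ^ 2 * (|D| * y ^ 2) * x ^ (e + 1)) +
            |D| * y ^ 2 * (2 * ((e + 1 : ℕ) : ℤ) * x ^ e) * x ^ 2 := by
            apply add_le_add
            · exact mul_le_mul_of_nonneg_left h2 hx.le
            · exact mul_le_mul_of_nonneg_right (mul_le_mul_of_nonneg_left h4 hB) hx2.le
        _ = (2 * ((e + 1 : ℕ) : ℤ) * ((e + 1 : ℕ) + 1)) * ((|D| * y ^ 2) * x ^ (e + 1 + 1)) := by ring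
        _ ≤ (2 * ((e + 1 + 1 : ℕ) : ℤ) ^ 2) * ((|D| * y ^ 2) * x ^ (e + 1 + 1)) := by
            apply mul_le_mul_of_nonneg_right _ (by positivity)
            push_cast
            nlinarith
        _ = _ := by ring
    have hsm : 2 * ((e + 1 + 1 : ℕ) : ℤ) ^ 2 * (|D| * y ^ 2) * x ^ (e + 1 + 1) * 2 ≤
        x ^ (e + 1 + 1) * x ^ 2 := by
      have hk2 : ((e + 1 + 1 : ℕ) : ℤ) ^ 2 ≤ (n : ℤ) ^ 2 := by
        apply pow_le_pow_left₀ (by positivity)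
        exact_mod_cast hkn
      calc 2 * ((e + 1 + 1 : ℕ) : ℤ) ^ 2 * (|D| * y ^ 2) * x ^ (e + 1 + 1) * 2
          = (4 * ((e + 1 + 1 : ℕ) : ℤ) ^ 2 * (|D| * y ^ 2)) * x ^ (e + 1 + 1) := by ring
        _ ≤ (4 * (n : ℤ) ^ 2 * (|D| * y ^ 2)) * x ^ (e + 1 + 1) := by
            apply mul_le_mul_of_nonneg_right _ hxe2.le
            apply mul_le_mul_of_nonneg_right _ hB
            linarith
        _ ≤ x ^ 2 * x ^ (e + 1 + 1) := mul_le_mul_of_nonneg_right hs hxe2.le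
        _ = _ := by ring
    have hb2 : |x * P + D * y ^ 2 * U - x ^ (e + 1 + 1)| * 2 ≤ x ^ (e + 1 + 1) := by
      have : (|x * P + D * y ^ 2 * U - x ^ (e + 1 + 1)| * 2) * x ^ 2 ≤ x ^ (e + 1 + 1) * x ^ 2 := by
        linarith
      exact le_of_mul_le_mul_right this hx2
    obtain ⟨hb3, hb4⟩ := abs_le.1 (show |x * P + D * y ^ 2 * U - x ^ (e + 1 + 1)| ≤
      |x * P + D * y ^ 2 * U - x ^ (e + 1 + 1)| from le_rfl)
    refine ⟨x * P + D * y ^ 2 * U, x * U + P, ?_, hb, ?_, hU', by linarith, by linarith, ?_, ?_, ?_⟩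
    · rw [pow_succ (x ^ 2 - D * y ^ 2) (e + 1), ← h1]; ring
    · positivity
    · have e1 : x * P + D * y ^ 2 * U - x ^ (e + 1 + 1) = x * (P - x ^ (e + 1)) + D * (y ^ 2 * U) := by ring
      rw [e1]
      exact dvd_add (h7.mul_left _) (dvd_mul_right _ _)
    · have e1 : x * P + D * y ^ 2 * U - 2 ^ (e + 1) * x ^ (e + 1 + 1) =
          x * (P - 2 ^ e * x ^ (e + 1)) + x ^ 2 * (U - 2 ^ e * x ^ e) - (x ^ 2 - D * y ^ 2) * U := by ring
      rw [e1]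
      exact dvd_sub (dvd_add (h8.mul_left _) (h9.mul_left _)) (dvd_mul_right _ _)
    · have e1 : x * U + P - 2 ^ (e + 1) * x ^ (e + 1) =
          x * (U - 2 ^ e * x ^ e) + (P - 2 ^ e * x ^ (e + 1)) := by ring
      rw [e1]
      exact dvd_add (h9.mul_left _) h8

/-- the powers are reduced -/
theorem powers_coprime (D x y P U : ℤ) (n : ℕ) (hx : Odd x) (hy : Even y)
    (hc : IsCoprime x (D * y)) (h1 : P ^ 2 - D * (y * U) ^ 2 = (x ^ 2 - D * y ^ 2) ^ n)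
    (h7 : D ∣ P - x ^ n) (h8 : (x ^ 2 - D * y ^ 2) ∣ P - 2 ^ (n - 1) * x ^ n) :
    IsCoprime P (D * (y * U)) := by
  have hW : Odd (x ^ 2 - D * y ^ 2) := by
    refine (hx.pow).sub_even ?_
    obtain ⟨k, hk⟩ := hy
    exact ⟨D * (2 * k ^ 2), by rw [hk]; ring⟩
  rw [Int.isCoprime_iff_gcd_eq_one, ← Int.isCoprime_iff_gcd_eq_one]
  rw [Int.isCoprime_iff_gcd_eq_one]
  by_contra hg
  obtain ⟨p, hp, hpg⟩ := Nat.exists_prime_and_dvd hg
  have hpP : (p : ℤ) ∣ P := (Int.natCast_dvd_natCast.2 hpg).trans (Int.gcd_dvd_left _ _)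
  have hpQ : (p : ℤ) ∣ D * (y * U) := (Int.natCast_dvd_natCast.2 hpg).trans (Int.gcd_dvd_right _ _)
  have hpp : Prime (p : ℤ) := Nat.prime_iff_prime_int.1 hp
  have hno : ∀ q : ℤ, Prime q → q ∣ x → q ∣ D * y → False := by
    intro q hq hqx hqy
    have := hc.isUnit_of_dvd' hqx hqy
    exact hq.not_unit this
  have hD : ¬ (p : ℤ) ∣ D := by
    intro hpD
    have h2 : (p : ℤ) ∣ x ^ n := by
      have := dvd_sub hpP (hpD.trans h7)
      rwa [sub_sub_cancel] at this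
    exact hno _ hpp (hpp.dvd_of_dvd_pow h2) (hpD.mul_right _)
  have hQ : (p : ℤ) ∣ y * U := (hpp.dvd_mul.1 hpQ).resolve_left hD
  have hpW : (p : ℤ) ∣ x ^ 2 - D * y ^ 2 := by
    apply hpp.dvd_of_dvd_pow (n := n)
    rw [← h1]
    exact dvd_sub (dvd_pow hpP (by norm_num)) (Dvd.dvd.mul_left (dvd_pow hQ (by norm_num)) _)
  have h2 : (p : ℤ) ∣ 2 ^ (n - 1) * x ^ n := by
    have := dvd_sub hpP (hpW.trans h8)
    rwa [sub_sub_cancel] at this
  have hpx : (p : ℤ) ∣ x := by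
    rcases hpp.dvd_mul.1 h2 with h | h
    · exfalso
      have h3 := hpp.dvd_of_dvd_pow h
      have h4 : p = 2 := by
        have : p ∣ 2 := by exact_mod_cast h3
        exact (Nat.prime_dvd_prime_iff_eq hp Nat.prime_two).1 this
      rw [h4] at hpW
      obtain ⟨k, hk⟩ := hW
      rw [hk] at hpW
      have : ((2 : ℕ) : ℤ) ∣ 1 := by
        have h5 : ((2 : ℕ) : ℤ) ∣ 2 * k := ⟨k, by push_cast; ring⟩
        have := dvd_sub hpW h5
        rwa [show 2 * k + 1 - 2 * k = 1 by ring] at this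
      norm_num at this
    · exact hpp.dvd_of_dvd_pow h
  have h3 : (p : ℤ) ∣ D * y ^ 2 := by
    have := dvd_sub (dvd_pow hpx (show (2 : ℕ) ≠ 0 by norm_num)) hpW
    rwa [sub_sub_cancel] at this
  have h4 : (p : ℤ) ∣ y := hpp.dvd_of_dvd_pow ((hpp.dvd_mul.1 h3).resolve_left hD)
  exact hno _ hpp hpx (h4.mul_left _)

end Pool.Agent.N746.Tw
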