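import Mathlib
import Pool.Agent.N746.Tw.Powers

/-!
# The maps onto the solutions of `x ^ 2 - D y ^ 2 = z ^ n`
-/

namespace Pool.Agent.N746.Tw

open Finset Pool.Agent.N746.Self

theorem good_pell (D : ℤ) (hD : D ≠ 0) (d N₀ : ℕ) (K : ℝ) (hd : 1 ≤ d) (hK : 1 ≤ K)
    (hS : Src D d N₀ K) (n : ℕ) (hn : 1 ≤ n) :
    Good (Pell D n) (2 * d * n) N₀ (1 / (2 * n * |(D : ℝ)| * K ^ 2))
      (64 * n ^ 2 * |(D : ℝ)| * 2 ^ n * K ^ (2 * n + 2)) := by
  intro X Y Z h hY hZ hXY hNZ hZX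
  have hDZ : 1 ≤ |D| := Int.one_le_abs hD
  have hDR : (1 : ℝ) ≤ |(D : ℝ)| := by exact_mod_cast hDZ
  have hnR : (1 : ℝ) ≤ n := by exact_mod_cast hn
  have hX0 : 0 < X := by omega
  have hXR : (0 : ℝ) < X := by exact_mod_cast hX0
  have hZR : (0 : ℝ) < Z := by exact_mod_cast hZ
  have hKp : 0 < K := by linarith
  have hden : 0 < 2 * (n : ℝ) * |(D : ℝ)| * K ^ 2 := by positivity
  have hZX2 : (Z : ℝ) * (2 * n * |(D : ℝ)| * K ^ 2) ≤ X := by
    have h0 := mul_le_mul_of_nonneg_right hZX hden.le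
    have e0 : 1 / (2 * (n : ℝ) * |(D : ℝ)| * K ^ 2) * X * (2 * n * |(D : ℝ)| * K ^ 2) = X := by
      rw [one_div, mul_assoc, mul_comm, mul_assoc, mul_inv_cancel₀ hden.ne', mul_one]
    linarith
  have hZK : (Z : ℝ) * K ≤ X := by
    refine le_trans ?_ hZX2
    apply mul_le_mul_of_nonneg_left _ hZR.le
    have h1 : 1 ≤ 2 * (n : ℝ) * |(D : ℝ)| * K := by
      have : 1 ≤ (n : ℝ) * |(D : ℝ)| := one_le_mul_of_one_le_of_one_le hnR hDR
      have : 1 ≤ ((n : ℝ) * |(D : ℝ)|) * K := one_le_mul_of_one_le_of_one_le this hK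
      linarith
    calc K = 1 * K := (one_mul _).symm
      _ ≤ (2 * (n : ℝ) * |(D : ℝ)| * K) * K := mul_le_mul_of_nonneg_right h1 hKp.le
      _ = _ := by ring
  obtain ⟨x, y, z, hx, hy, hz, hxyz, hxo, hye, hcop, hZy, hXx, hxX, hyX, hR⟩ :=
    hS X Y Z h hY hZ hXY hNZ hZK
  have hxR : (0 : ℝ) < x := by exact_mod_cast hx
  have hyR : (0 : ℝ) < y := by exact_mod_cast hy
  -- the point is close to the cusp
  have hyx : (y : ℝ) * (2 * n * |(D : ℝ)|) ≤ x := by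
    have h1 : ((y : ℝ) * (2 * n * |(D : ℝ)|)) * X ≤ x * X := by
      calc ((y : ℝ) * (2 * n * |(D : ℝ)|)) * X = (2 * n * |(D : ℝ)|) * (y * X) := by ring
        _ ≤ (2 * n * |(D : ℝ)|) * (K * Z * (X : ℝ) ^ d) := mul_le_mul_of_nonneg_left hyX (by positivity)
        _ ≤ (2 * n * |(D : ℝ)|) * (K * Z * (K * x)) := by gcongr
        _ = (Z * (2 * n * |(D : ℝ)| * K ^ 2)) * x := by ring
        _ ≤ X * x := mul_le_mul_of_nonneg_right hZX2 hxR.le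
        _ = _ := mul_comm _ _
    exact le_of_mul_le_mul_right h1 hXR
  have hyx1 : (y : ℝ) ≤ x := by
    refine le_trans ?_ hyx
    apply le_mul_of_one_le_right hyR.le
    have : 1 ≤ (n : ℝ) * |(D : ℝ)| := one_le_mul_of_one_le_of_one_le hnR hDR
    linarith
  have hsZ : 4 * (n : ℤ) ^ 2 * (|D| * (y : ℤ) ^ 2) ≤ (x : ℤ) ^ 2 := by
    have h1 : ((y : ℝ) * (2 * n * |(D : ℝ)|)) ^ 2 ≤ (x : ℝ) ^ 2 := pow_le_pow_left₀ (by positivity) hyx 2
    have h2 : 4 * (n : ℝ) ^ 2 * (|(D : ℝ)| * (y : ℝ) ^ 2) ≤ (x : ℝ) ^ 2 := by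
      refine le_trans ?_ h1
      have : |(D : ℝ)| ≤ |(D : ℝ)| ^ 2 := by nlinarith
      calc 4 * (n : ℝ) ^ 2 * (|(D : ℝ)| * (y : ℝ) ^ 2) = (4 * (n : ℝ) ^ 2 * (y : ℝ) ^ 2) * |(D : ℝ)| := by ring
        _ ≤ (4 * (n : ℝ) ^ 2 * (y : ℝ) ^ 2) * |(D : ℝ)| ^ 2 := mul_le_mul_of_nonneg_left this (by positivity)
        _ = _ := by ring
    exact_mod_cast h2
  obtain ⟨P, U, h1, _, h3, h4, h5, h6, h7, h8, _⟩ :=
    powers D x y (by exact_mod_cast hx) n hsZ n hn le_rfl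
  have hPQ := powers_coprime D x y P U n (by exact_mod_cast hxo) (by exact_mod_cast hye) hcop h1 h7 h8
  rw [hxyz, ← pow_mul] at h1
  have hx0 : (0 : ℤ) < x := by exact_mod_cast hx
  have hy0 : (0 : ℤ) < y := by exact_mod_cast hy
  have hz0 : (0 : ℤ) < z := by exact_mod_cast hz
  have hxn : (0 : ℤ) < (x : ℤ) ^ n := by positivity
  have hP0 : 0 < P := by linarith
  -- pass to natural numbers
  obtain ⟨p, rfl⟩ : ∃ p : ℕ, P = p := ⟨P.toNat, by rw [Int.toNat_of_nonneg hP0.le]⟩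
  obtain ⟨u, rfl⟩ : ∃ u : ℕ, U = u := ⟨U.toNat, by rw [Int.toNat_of_nonneg h3.le]⟩
  have hp : 0 < p := by exact_mod_cast hP0
  have hu : 0 < u := by exact_mod_cast h3
  have hpR : (0 : ℝ) < p := by exact_mod_cast hp
  have huR : (0 : ℝ) < u := by exact_mod_cast hu
  have h4R : (u : ℝ) ≤ 2 * n * (x : ℝ) ^ (n - 1) := by exact_mod_cast h4
  have h5R : (x : ℝ) ^ n ≤ 2 * p := by exact_mod_cast h5
  have h6R : (p : ℝ) ≤ 2 * (x : ℝ) ^ n := by exact_mod_cast h6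
  set a : ℕ := D.natAbs * (y * u) ^ 2 with ha
  have haZ : (a : ℤ) = |D| * ((y : ℤ) * u) ^ 2 := by
    rw [ha]; push_cast; rfl
  have ha0 : 0 < a := by
    have : 0 < D.natAbs := Int.natAbs_pos.2 hD
    positivity
  have hw0 : 0 < z ^ (2 * n) := by positivity
  have hcopN : Nat.Coprime a (p ^ 2) := by
    have h9 : Nat.Coprime p (D.natAbs * (y * u)) := by
      rw [Int.isCoprime_iff_gcd_eq_one, Int.gcd_def, Int.natAbs_mul, Int.natAbs_mul, Int.natAbs_natCast,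
        Int.natAbs_natCast, Int.natAbs_natCast] at hPQ
      exact hPQ
    have h10 : Nat.Coprime (p ^ 2) ((D.natAbs * (y * u)) ^ 2) := h9.pow 2 2
    exact (h10.coprime_dvd_right ⟨D.natAbs, by rw [ha]; ring⟩).symm
  -- the largest term
  obtain ⟨b, c, hb0, habc, hcopab, hS', hcp, hcx⟩ : ∃ b c : ℕ, 0 < b ∧ a + b = c ∧ Nat.Coprime a b ∧
      ({b, c} : Multiset ℕ) = {p ^ 2, z ^ (2 * n)} ∧ p ^ 2 ≤ c ∧
      (c : ℝ) ≤ 4 * 2 ^ n * (x : ℝ) ^ (2 * n) := by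
    rcases lt_or_gt_of_ne hD with hneg | hpos
    · refine ⟨p ^ 2, z ^ (2 * n), by positivity, ?_, hcopN, rfl, ?_, ?_⟩
      · have : ((a : ℤ) + (p : ℤ) ^ 2) = (z : ℤ) ^ (2 * n) := by
          rw [haZ, abs_of_neg hneg, ← h1]; ring
        exact_mod_cast this
      · have : ((a : ℤ) + (p : ℤ) ^ 2) = (z : ℤ) ^ (2 * n) := by
          rw [haZ, abs_of_neg hneg, ← h1]; ring
        have h9 : a + p ^ 2 = z ^ (2 * n) := by exact_mod_cast this
        omega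
      · have h9 : (z : ℤ) ^ 2 ≤ 2 * (x : ℤ) ^ 2 := by
          have h10 : |D| * (y : ℤ) ^ 2 ≤ 4 * (n : ℤ) ^ 2 * (|D| * (y : ℤ) ^ 2) := by
            have h11 : (1 : ℤ) ≤ (n : ℤ) ^ 2 := one_le_pow₀ (by exact_mod_cast hn)
            have h12 : 0 ≤ |D| * (y : ℤ) ^ 2 := by positivity
            nlinarith
          rw [abs_of_neg hneg] at h10 hsZ
          have h13 := hxyz
          linarith
        have h10 : (z : ℝ) ^ 2 ≤ 2 * (x : ℝ) ^ 2 := by exact_mod_cast h9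
        push_cast
        calc (z : ℝ) ^ (2 * n) = ((z : ℝ) ^ 2) ^ n := pow_mul _ _ _
          _ ≤ (2 * (x : ℝ) ^ 2) ^ n := pow_le_pow_left₀ (by positivity) h10 n
          _ = 2 ^ n * (x : ℝ) ^ (2 * n) := by rw [mul_pow, ← pow_mul]
          _ ≤ 4 * 2 ^ n * (x : ℝ) ^ (2 * n) := by
            apply mul_le_mul_of_nonneg_right _ (by positivity)
            have : (0 : ℝ) < 2 ^ n := by positivity
            linarith
    · have hsum : a + z ^ (2 * n) = p ^ 2 := by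
        have : ((a : ℤ) + (z : ℤ) ^ (2 * n)) = (p : ℤ) ^ 2 := by
          rw [haZ, abs_of_pos hpos, ← h1]; ring
        exact_mod_cast this
      refine ⟨z ^ (2 * n), p ^ 2, by positivity, hsum, ?_, ?_, le_rfl, ?_⟩
      · rw [← hsum] at hcopN
        simpa using hcopN
      · exact Multiset.pair_comm _ _
      · push_cast
        calc (p : ℝ) ^ 2 ≤ (2 * (x : ℝ) ^ n) ^ 2 := pow_le_pow_left₀ hpR.le h6R 2
          _ = 4 * 1 * (x : ℝ) ^ (2 * n) := by rw [mul_pow, ← pow_mul]; ring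
          _ ≤ 4 * 2 ^ n * (x : ℝ) ^ (2 * n) := by
            apply mul_le_mul_of_nonneg_right _ (by positivity)
            have : (1 : ℝ) ≤ 2 ^ n := one_le_pow₀ (by norm_num)
            linarith
  have hc0 : 0 < c := by omega
  have hcR : (0 : ℝ) < c := by exact_mod_cast hc0
  have hxc : (x : ℝ) ^ (2 * n) ≤ 4 * c := by
    have h9 : (p : ℝ) ^ 2 ≤ c := by exact_mod_cast hcp
    calc (x : ℝ) ^ (2 * n) = ((x : ℝ) ^ n) ^ 2 := by rw [← pow_mul, mul_comm]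
      _ ≤ (2 * p) ^ 2 := pow_le_pow_left₀ (by positivity) h5R 2
      _ = 4 * (p : ℝ) ^ 2 := by ring
      _ ≤ 4 * c := by linarith
  have hK2n : (1 : ℝ) ≤ K ^ (2 * n) := one_le_pow₀ hK
  have hK2 : (1 : ℝ) ≤ K ^ 2 := one_le_pow₀ hK
  have h2n : (1 : ℝ) ≤ 2 ^ n := one_le_pow₀ (by norm_num)
  have hn2 : (1 : ℝ) ≤ (n : ℝ) ^ 2 := one_le_pow₀ hnR
  have hnn2 : (n : ℝ) ≤ (n : ℝ) ^ 2 := by nlinarith
  refine ⟨a, b, c, ha0, hb0, habc, ?_, ?_, ?_, ?_, ?_, ?_, ?_⟩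
  · -- coprime
    exact hcopab
  · refine ⟨p, y * u, z ^ 2, ?_, ?_, ?_⟩
    · rw [h1, ← pow_mul]
    · rw [haZ]
    · rw [hS', Int.natAbs_natCast, Int.natAbs_pow, Int.natAbs_natCast, ← pow_mul]
  · rw [ha]
    refine hZy.trans ⟨D.natAbs * (y * u) * u, by ring⟩
  · -- `a X ≤ K' Z c`
    have haR : (a : ℝ) = |(D : ℝ)| * ((y : ℝ) * u) ^ 2 := by
      have : ((a : ℤ) : ℝ) = ((|D| * ((y : ℤ) * u) ^ 2 : ℤ) : ℝ) := by rw [haZ]
      push_cast at this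
      exact this
    calc (a : ℝ) * X = |(D : ℝ)| * (u : ℝ) ^ 2 * y * (y * X) := by rw [haR]; ring
      _ ≤ |(D : ℝ)| * (2 * n * (x : ℝ) ^ (n - 1)) ^ 2 * x * (K * Z * (K * x)) := by
          have h9 : (y : ℝ) * X ≤ K * Z * (K * x) :=
            hyX.trans (mul_le_mul_of_nonneg_left hXx (by positivity))
          gcongr
      _ = (4 * n ^ 2 * |(D : ℝ)| * K ^ 2 * Z) * (((x : ℝ) ^ (n - 1)) ^ 2 * x ^ 2) := by ring
      _ = (4 * n ^ 2 * |(D : ℝ)| * K ^ 2 * Z) * (x : ℝ) ^ (2 * n) := by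
          congr 1
          rw [← mul_pow, ← pow_succ, Nat.sub_add_cancel hn, ← pow_mul, mul_comm n 2]
      _ ≤ (4 * n ^ 2 * |(D : ℝ)| * K ^ 2 * Z) * (4 * c) := mul_le_mul_of_nonneg_left hxc (by positivity)
      _ = (16 * 1 * 1) * (n ^ 2 * |(D : ℝ)| * K ^ 2) * Z * c := by ring
      _ ≤ (64 * 2 ^ n * K ^ (2 * n)) * (n ^ 2 * |(D : ℝ)| * K ^ 2) * Z * c := by
          gcongr
          norm_num
      _ = (64 * n ^ 2 * |(D : ℝ)| * 2 ^ n * K ^ (2 * n + 2)) * Z * c := by rw [pow_add]; ring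
  · -- `X ^ d' ≤ K' c`
    calc (X : ℝ) ^ (2 * d * n) = ((X : ℝ) ^ d) ^ (2 * n) := by rw [← pow_mul]; congr 1; ring
      _ ≤ (K * x) ^ (2 * n) := pow_le_pow_left₀ (by positivity) hXx _
      _ = K ^ (2 * n) * (x : ℝ) ^ (2 * n) := mul_pow _ _ _
      _ ≤ K ^ (2 * n) * (4 * c) := mul_le_mul_of_nonneg_left hxc (by positivity)
      _ = (4 * 1 * 1 * 1 * 1) * K ^ (2 * n) * c := by ring
      _ ≤ (64 * n ^ 2 * |(D : ℝ)| * 2 ^ n * K ^ 2) * K ^ (2 * n) * c := by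
          gcongr
          norm_num
      _ = _ := by rw [pow_add]; ring
  · -- `c ≤ K' X ^ d'`
    calc (c : ℝ) ≤ 4 * 2 ^ n * (x : ℝ) ^ (2 * n) := hcx
      _ ≤ 4 * 2 ^ n * (K * (X : ℝ) ^ d) ^ (2 * n) := by gcongr
      _ = (4 * 1 * 1 * 1) * 2 ^ n * K ^ (2 * n) * (X : ℝ) ^ (2 * d * n) := by
          rw [mul_pow, ← pow_mul]
          ring_nf
      _ ≤ (64 * n ^ 2 * |(D : ℝ)| * K ^ 2) * 2 ^ n * K ^ (2 * n) * (X : ℝ) ^ (2 * d * n) := by
          gcongr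
          norm_num
      _ = _ := by rw [pow_add]; ring
  · -- the radical
    have hbc : b * c = p ^ 2 * z ^ (2 * n) := by
      have h9 : ({b, c} : Multiset ℕ).prod = ({p ^ 2, z ^ (2 * n)} : Multiset ℕ).prod := by rw [hS']
      simpa using h9
    have hD0 : 0 < D.natAbs := Int.natAbs_pos.2 hD
    have hne : D.natAbs * u * p ≠ 0 := by positivity
    have hR1 : R (a * b * c) ≤ R (y * z) * (D.natAbs * u * p) := by
      apply R_bound (by positivity) hne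
      intro q hq hqd
      rw [mul_assoc, hbc, ha] at hqd
      have h9 : q ∣ (y * z * (D.natAbs * u * p)) ^ (2 * n + 2) := by
        refine hqd.trans ?_
        refine ⟨D.natAbs ^ (2 * n + 1) * y ^ (2 * n) * u ^ (2 * n) * p ^ (2 * n) * z ^ 2, ?_⟩
        ring
      exact hq.dvd_of_dvd_pow h9
    have hDabs : ((D.natAbs : ℕ) : ℝ) = |(D : ℝ)| := by rw [Nat.cast_natAbs, Int.cast_abs]
    have e1 : d - 1 + d * (2 * n - 1) = 2 * d * n - 1 := by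
      obtain ⟨d', rfl⟩ : ∃ d', d = d' + 1 := ⟨d - 1, by omega⟩
      obtain ⟨n', rfl⟩ : ∃ n', n = n' + 1 := ⟨n - 1, by omega⟩
      have e2 : 2 * (n' + 1) - 1 = 2 * n' + 1 := by omega
      have e3 : 2 * (d' + 1) * (n' + 1) = (2 * d' * n' + 2 * d' + 2 * n' + 1) + 1 := by ring
      rw [e2, e3, Nat.add_sub_cancel, Nat.add_sub_cancel]
      ring
    calc (R (a * b * c) : ℝ) ≤ ((R (y * z) * (D.natAbs * u * p) : ℕ) : ℝ) := by exact_mod_cast hR1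
      _ = R (y * z) * (((D.natAbs : ℕ) : ℝ) * u * p) := by rw [Nat.cast_mul, Nat.cast_mul, Nat.cast_mul]
      _ = R (y * z) * (|(D : ℝ)| * u * p) := by rw [hDabs]
      _ ≤ (K * R (X * Y * Z) * (X : ℝ) ^ (d - 1)) *
          (|(D : ℝ)| * (2 * n * (x : ℝ) ^ (n - 1)) * (2 * (x : ℝ) ^ n)) := by gcongr
      _ = (4 * n * |(D : ℝ)| * K * R (X * Y * Z) * (X : ℝ) ^ (d - 1)) * ((x : ℝ) ^ (n - 1) * (x : ℝ) ^ n) := by
          ring
      _ = (4 * n * |(D : ℝ)| * K * R (X * Y * Z) * (X : ℝ) ^ (d - 1)) * (x : ℝ) ^ (2 * n - 1) := by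
          rw [← pow_add]; congr 3; omega
      _ ≤ (4 * n * |(D : ℝ)| * K * R (X * Y * Z) * (X : ℝ) ^ (d - 1)) *
          (K * (X : ℝ) ^ d) ^ (2 * n - 1) := by gcongr
      _ = (4 * n * |(D : ℝ)| * (K * K ^ (2 * n - 1))) * R (X * Y * Z) *
          ((X : ℝ) ^ (d - 1) * (X : ℝ) ^ (d * (2 * n - 1))) := by rw [mul_pow, ← pow_mul]; ring
      _ = (4 * n * |(D : ℝ)| * (K ^ (2 * n))) * R (X * Y * Z) * (X : ℝ) ^ (2 * d * n - 1) := by
          rw [← pow_add, e1, ← pow_succ']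
          congr 5
          omega
      _ = (4 * n * |(D : ℝ)| * 1 * (K ^ (2 * n) * 1)) * R (X * Y * Z) * (X : ℝ) ^ (2 * d * n - 1) := by ring
      _ ≤ (64 * n ^ 2 * |(D : ℝ)| * 2 ^ n * (K ^ (2 * n) * K ^ 2)) * R (X * Y * Z) *
          (X : ℝ) ^ (2 * d * n - 1) := by
          gcongr
          norm_num
      _ = _ := by rw [← pow_add]

end Pool.Agent.N746.Tw
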