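import Mathlib
import Pool.Agent.N746.Tw.Src
import Pool.Agent.N746.Self.Sigs4

/-!
# The maps onto the twisted three point sets: positive `D`
-/

namespace Pool.Agent.N746.Tw

open Finset Pool.Agent.N746.Self

theorem src_one : Src 1 2 2 4 := by
  intro X Y Z h hY hZ hXY h2Z _
  have hXZ : Nat.Coprime X Z := coprime_XZ h hXY
  have hX0 : 0 < X := by omega
  have hXo : Odd X := by
    rw [← Nat.not_even_iff_odd, even_iff_two_dvd]
    intro h2
    have := Nat.dvd_gcd h2 h2Z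
    rw [hXZ] at this
    norm_num at this
  have hXR : (0 : ℝ) < X := by exact_mod_cast hX0
  have hZR : (0 : ℝ) < Z := by exact_mod_cast hZ
  have hZX : (Z : ℝ) ≤ X := by exact_mod_cast (show Z ≤ X by omega)
  obtain ⟨k, rfl⟩ := h2Z
  refine ⟨X ^ 2 + (2 * k) ^ 2, 2 * X * (2 * k), Y * (X + 2 * k), by positivity, by positivity,
    by positivity, ?_, ?_, ?_, ?_, ?_, ?_, ?_, ?_, ?_⟩
  · rw [← h]; push_cast; ring
  · exact (hXo.pow).add_even ⟨2 * k ^ 2, by ring⟩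
  · exact ⟨X * (2 * k), by ring⟩
  · rw [Int.isCoprime_iff_gcd_eq_one]
    have : Nat.Coprime (X ^ 2 + (2 * k) ^ 2) (2 * X * (2 * k)) := by
      apply coprime_of
      intro p hp h1 h2
      have hX : ¬ p ∣ X := by
        intro h3
        have h4 : p ∣ (2 * k) ^ 2 := (Nat.dvd_add_right (dvd_pow h3 (by norm_num))).1 h1
        have := Nat.dvd_gcd h3 (hp.dvd_of_dvd_pow h4)
        rw [hXZ] at this
        exact hp.one_lt.ne' (Nat.dvd_one.1 this)
      have hZ' : ¬ p ∣ 2 * k := by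
        intro h3
        have h4 : p ∣ X ^ 2 := (Nat.dvd_add_left (dvd_pow h3 (by norm_num))).1 h1
        exact hX (hp.dvd_of_dvd_pow h4)
      rcases hp.dvd_mul.1 h2 with h3 | h3
      · rcases hp.dvd_mul.1 h3 with h4 | h4
        · exact hZ' (h4.mul_right _)
        · exact hX h4
      · exact hZ' h3
    have e : ((1 : ℤ) * ((2 * X * (2 * k) : ℕ) : ℤ)) = ((2 * X * (2 * k) : ℕ) : ℤ) := one_mul _
    rw [e, Int.gcd_natCast_natCast]
    exact this
  · exact ⟨4 * X, by ring⟩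
  · push_cast
    have : (0 : ℝ) ≤ (2 * k) ^ 2 := by positivity
    nlinarith [sq_nonneg (X : ℝ)]
  · push_cast at hZX ⊢
    have : (2 * (k : ℝ)) ^ 2 ≤ X ^ 2 := pow_le_pow_left₀ (by positivity) hZX 2
    nlinarith [sq_nonneg (X : ℝ)]
  · push_cast
    have : (0 : ℝ) ≤ (k : ℝ) * X ^ 2 := by positivity
    nlinarith
  · have hn0 : X * Y * (2 * k) ≠ 0 := by positivity
    have hw0 : 2 * (X + 2 * k) ≠ 0 := by positivity
    have hRb := R_bound (m := 2 * X * (2 * k) * (Y * (X + 2 * k))) hn0 hw0 (by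
      intro p hp hd
      have : 2 * X * (2 * k) * (Y * (X + 2 * k)) = X * Y * (2 * k) * (2 * (X + 2 * k)) := by ring
      rwa [this] at hd)
    calc (R (2 * X * (2 * k) * (Y * (X + 2 * k))) : ℝ)
        ≤ ((R (X * Y * (2 * k)) * (2 * (X + 2 * k)) : ℕ) : ℝ) := by exact_mod_cast hRb
      _ = R (X * Y * (2 * k)) * (2 * (X + 2 * k)) := by push_cast; ring
      _ ≤ R (X * Y * (2 * k)) * (2 * (X + X)) := by
          push_cast at hZX
          gcongr
      _ = 4 * R (X * Y * (2 * k)) * (X : ℝ) ^ (2 - 1) := by norm_num; ring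

/-- the double root of the form for positive `D = e + 1` -/
theorem double_pos (e : ℕ) (he : 2 ≤ e) (x1 y1 M : ℤ) (hx : |x1| ≤ M) (hy : |y1| ≤ M) :
    ∃ G : ℤ, (e : ℤ) ^ e * y1 ^ (e + 1) - x1 * ((e + 1) * y1 - x1) ^ e = (x1 - y1) ^ 2 * G ∧
      |G| ≤ ((e : ℤ) ^ e + 2 ^ e * (e + 2) ^ (e - 2)) * M ^ (e - 1) := by
  obtain ⟨k, rfl⟩ : ∃ k, e = k + 2 := ⟨e - 2, by omega⟩
  obtain ⟨G, h1, h2⟩ := binom (y1 - x1) ((k + 2 : ℕ) * y1) (k + 2) (by omega)
  have hM : 0 ≤ M := (abs_nonneg _).trans hx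
  simp only [show k + 2 - 1 = k + 1 by omega, show k + 2 - 2 = k by omega] at h1 h2 ⊢
  have ha0 : (0 : ℤ) ≤ ((k + 2 : ℕ) : ℤ) := Nat.cast_nonneg _
  generalize ((k + 2 : ℕ) : ℤ) = a at h1 h2 ha0 ⊢
  refine ⟨a * (a * y1) ^ (k + 1) - x1 * G, ?_, ?_⟩
  · have e1 : (a + 1) * y1 - x1 = y1 - x1 + a * y1 := by ring
    rw [e1, h1]
    ring
  · have h3 : |y1 - x1| ≤ 2 * M := by
      have := abs_sub y1 x1
      linarith
    have h4 : |a * y1| ≤ a * M := by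
      rw [abs_mul, abs_of_nonneg ha0]
      exact mul_le_mul_of_nonneg_left hy ha0
    calc |a * (a * y1) ^ (k + 1) - x1 * G|
        ≤ a * |a * y1| ^ (k + 1) + |x1| * |G| := by
          refine (abs_sub _ _).trans ?_
          rw [abs_mul, abs_mul, abs_pow, abs_of_nonneg ha0]
      _ ≤ a * (a * M) ^ (k + 1) + M * (2 ^ (k + 2) * (|y1 - x1| + |a * y1|) ^ k) := by gcongr
      _ ≤ a * (a * M) ^ (k + 1) + M * (2 ^ (k + 2) * (2 * M + a * M) ^ k) := by gcongr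
      _ = a * (a * M) ^ (k + 1) + M * (2 ^ (k + 2) * ((a + 2) * M) ^ k) := by ring
      _ = (a ^ (k + 2) + 2 ^ (k + 2) * (a + 2) ^ k) * M ^ (k + 1) := by
          rw [mul_pow (a + 2) M k, mul_pow a M (k + 1)]
          ring

/-- the double root of the form for negative `D = 1 - e` -/
theorem double_neg (e : ℕ) (he : 2 ≤ e) (x1 y1 M : ℤ) (hx : |x1| ≤ M) (hy : |y1| ≤ M) :
    ∃ G : ℤ, (x1 + (e - 1) * y1) ^ e - (e : ℤ) ^ e * x1 * y1 ^ (e - 1) = (x1 - y1) ^ 2 * G ∧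
      |G| ≤ (2 ^ e * (e + 2) ^ (e - 2)) * M ^ (e - 2) := by
  obtain ⟨k, rfl⟩ : ∃ k, e = k + 2 := ⟨e - 2, by omega⟩
  obtain ⟨G, h1, h2⟩ := binom (x1 - y1) ((k + 2 : ℕ) * y1) (k + 2) (by omega)
  have hM : 0 ≤ M := (abs_nonneg _).trans hx
  simp only [show k + 2 - 1 = k + 1 by omega, show k + 2 - 2 = k by omega] at h1 h2 ⊢
  have ha0 : (0 : ℤ) ≤ ((k + 2 : ℕ) : ℤ) := Nat.cast_nonneg _
  generalize ((k + 2 : ℕ) : ℤ) = a at h1 h2 ha0 ⊢
  refine ⟨G, ?_, ?_⟩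
  · have e1 : x1 + (a - 1) * y1 = x1 - y1 + a * y1 := by ring
    rw [e1, h1]
    ring
  · have h3 : |x1 - y1| ≤ 2 * M := by
      have := abs_sub x1 y1
      linarith
    have h4 : |a * y1| ≤ a * M := by
      rw [abs_mul, abs_of_nonneg ha0]
      exact mul_le_mul_of_nonneg_left hy ha0
    calc |G| ≤ 2 ^ (k + 2) * (|x1 - y1| + |a * y1|) ^ k := h2
      _ ≤ 2 ^ (k + 2) * (2 * M + a * M) ^ k := by gcongr
      _ = 2 ^ (k + 2) * ((a + 2) * M) ^ k := by ring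
      _ = _ := by rw [mul_pow (a + 2) M k]; ring

end Pool.Agent.N746.Tw
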