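import Mathlib
import Pool.Agent.N746.Tw.Pos

/-!
# The maps onto the twisted three point sets: negative `D`, the source
-/

namespace Pool.Agent.N746.Tw

open Finset Pool.Agent.N746.Self

theorem src_neg (m : ℕ) :
    Src (-((2 * m + 1 : ℕ) : ℤ)) (2 * (2 * (m + 1)))
      ((2 * m + 1) ^ (m + 1) * ((2 * (m + 1)) * (2 * m + 1)))
      (2 ^ (2 * (m + 1) + 3) * (2 * (m + 1) : ℕ) ^ (2 * (m + 1) + 1) * (2 * m + 1 : ℕ) ^ (2 * (m + 1)) *
        (2 ^ (2 * (m + 1)) * ((2 * (m + 1) : ℕ) + 2) ^ (2 * (m + 1) - 2))) := by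
  intro X Y Z h hY hZ hXY hN hZK
  obtain ⟨e, he⟩ : ∃ e, e = 2 * (m + 1) := ⟨_, rfl⟩
  obtain ⟨δ, hδ⟩ : ∃ δ, δ = 2 * m + 1 := ⟨_, rfl⟩
  obtain ⟨β, hβ⟩ : ∃ β, β = m + 1 := ⟨_, rfl⟩
  rw [← he, ← hδ] at hZK hN ⊢
  rw [← hβ] at hN
  have heβ : e = 2 * β := by omega
  have heδ : e = δ + 1 := by omega
  have he2 : 2 ≤ e := by omega
  have he0 : 0 < e := by omega
  have hδ0 : 0 < δ := by omega
  have hXZ : Nat.Coprime X Z := coprime_XZ h hXY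
  have hX0 : 0 < X := by omega
  set K₂ : ℝ := 2 ^ e * ((e : ℕ) + 2) ^ (e - 2) with hK₂
  have heR : (1 : ℝ) ≤ e := by exact_mod_cast he0
  have hδR : (1 : ℝ) ≤ δ := by exact_mod_cast hδ0
  have hK₂1 : 1 ≤ K₂ := by
    rw [hK₂]
    have h1 : (1 : ℝ) ≤ 2 ^ e := one_le_pow₀ (by norm_num)
    have h2 : (1 : ℝ) ≤ ((e : ℕ) + 2 : ℝ) ^ (e - 2) := one_le_pow₀ (by linarith)
    nlinarith
  have hee : (1 : ℝ) ≤ (e : ℝ) ^ e := one_le_pow₀ heR
  have hee1 : (e : ℝ) ^ e ≤ (e : ℝ) ^ (e + 1) := pow_le_pow_right₀ heR (by omega)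
  have hδe : (δ : ℝ) ≤ (δ : ℝ) ^ e := by
    calc (δ : ℝ) = (δ : ℝ) ^ 1 := (pow_one _).symm
      _ ≤ _ := pow_le_pow_right₀ hδR (by omega)
  set K : ℝ := 2 ^ (e + 3) * (e : ℝ) ^ (e + 1) * (δ : ℝ) ^ e * K₂ with hK
  have hKA : 2 ^ (e + 1) * (e : ℝ) ^ e * δ ≤ K := by
    calc 2 ^ (e + 1) * (e : ℝ) ^ e * δ ≤ 2 ^ (e + 3) * (e : ℝ) ^ (e + 1) * (δ : ℝ) ^ e * 1 := by
          rw [mul_one]
          have : (2 : ℝ) ^ (e + 1) ≤ 2 ^ (e + 3) := pow_le_pow_right₀ (by norm_num) (by omega)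
          gcongr
      _ ≤ K := by rw [hK]; gcongr
  have h2e : (1 : ℝ) ≤ 2 ^ (e + 1) := one_le_pow₀ (by norm_num)
  have hKB : (2 : ℝ) ^ (e + 1) ≤ K := by
    refine le_trans ?_ hKA
    calc (2 : ℝ) ^ (e + 1) = 2 ^ (e + 1) * 1 * 1 := by ring
      _ ≤ _ := by gcongr
  have hK1 : 1 ≤ K := h2e.trans hKB
  have hKC : 2 * (e : ℝ) ^ e ≤ K := by
    refine le_trans ?_ hKA
    calc 2 * (e : ℝ) ^ e = 2 ^ 1 * (e : ℝ) ^ e * 1 := by ring
      _ ≤ 2 ^ (e + 1) * (e : ℝ) ^ e * δ := by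
        have : (2 : ℝ) ^ 1 ≤ 2 ^ (e + 1) := pow_le_pow_right₀ (by norm_num) (by omega)
        gcongr
  obtain ⟨k, hk⟩ := hN
  obtain ⟨W, hW⟩ : ∃ W, W = e * δ * k := ⟨_, rfl⟩
  have hZW : Z = δ ^ β * W := by rw [hk, hW]; ring
  have hW0 : 0 < W := by
    rcases Nat.eq_zero_or_pos W with h0 | h0
    · rw [h0] at hZW; omega
    · exact h0
  have hWdZ : W ∣ Z := ⟨δ ^ β, by rw [hZW]; ring⟩
  have hWZ : W ≤ Z := Nat.le_of_dvd hZ hWdZ
  obtain ⟨T, hT⟩ : ∃ T, T = Y * (X + Z) := ⟨_, rfl⟩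
  have hT2 : T + Z ^ 2 = X ^ 2 := by rw [hT, ← h]; ring
  have hT0 : 0 < T := by rw [hT]; positivity
  have hTX : T ≤ X ^ 2 := by omega
  have hXR : (0 : ℝ) < X := by exact_mod_cast hX0
  have hZR : (0 : ℝ) < Z := by exact_mod_cast hZ
  have hTR : (T : ℝ) ≤ (X : ℝ) ^ 2 := by exact_mod_cast hTX
  have hTR0 : (0 : ℝ) < T := by exact_mod_cast hT0
  have hWR : (W : ℝ) ≤ Z := by exact_mod_cast hWZ
  have hZX : (Z : ℝ) ≤ X := by nlinarith
  have hZXn : Z ≤ X := by exact_mod_cast hZX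
  -- divisibility
  have h2W : 2 ∣ W := by rw [hW, heβ]; exact ⟨β * δ * k, by ring⟩
  have hδW : δ ∣ W := by rw [hW]; exact ⟨e * k, by ring⟩
  have heW : e ∣ W := by rw [hW]; exact ⟨δ * k, by ring⟩
  have hXo : Odd X := by
    rw [← Nat.not_even_iff_odd, even_iff_two_dvd]
    intro h2
    have := Nat.dvd_gcd h2 (h2W.trans hWdZ)
    rw [hXZ] at this
    norm_num at this
  have hpZ : ∀ p : ℕ, p.Prime → p ∣ X → p ∣ Z → False := by
    intro p hp h1 h2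
    have := Nat.dvd_gcd h1 h2
    rw [hXZ] at this
    exact hp.one_lt.ne' (Nat.dvd_one.1 this)
  have hTo : Odd T := by
    have h1 : Odd (T + Z ^ 2) := by rw [hT2]; exact hXo.pow
    have h2 : Even (Z ^ 2) := by
      rw [pow_two, even_iff_two_dvd]
      exact (h2W.trans hWdZ).mul_right _
    exact (Nat.odd_add.1 h1).2 h2
  obtain ⟨u, hu⟩ : ∃ u, u = δ * e ^ e * W ^ 2 * X ^ (2 * e - 2) := ⟨_, rfl⟩
  have hKK : 2 ^ (e + 1) * (e : ℝ) ^ e * δ ≤ K ^ 2 := by nlinarith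
  have hsm : (2 ^ (e + 1) * (e : ℝ) ^ e * δ) * (Z : ℝ) ^ 2 ≤ (X : ℝ) ^ 2 := by
    have h3 : ((Z : ℝ) * K) ^ 2 ≤ (X : ℝ) ^ 2 := pow_le_pow_left₀ (by positivity) hZK 2
    have h5 : (2 ^ (e + 1) * (e : ℝ) ^ e * δ) * (Z : ℝ) ^ 2 ≤ K ^ 2 * (Z : ℝ) ^ 2 :=
      mul_le_mul_of_nonneg_right hKK (by positivity)
    nlinarith
  have hTlow : (X : ℝ) ^ 2 ≤ 2 * T := by
    have h1 : (T : ℝ) + (Z : ℝ) ^ 2 = (X : ℝ) ^ 2 := by exact_mod_cast hT2
    have h2 : 2 * (Z : ℝ) ^ 2 ≤ (X : ℝ) ^ 2 := by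
      refine le_trans ?_ hsm
      apply mul_le_mul_of_nonneg_right _ (by positivity)
      calc (2 : ℝ) = 2 ^ 1 * 1 * 1 := by norm_num
        _ ≤ 2 ^ (e + 1) * (e : ℝ) ^ e * δ := by
          have : (2 : ℝ) ^ 1 ≤ 2 ^ (e + 1) := pow_le_pow_right₀ (by norm_num) (by omega)
          gcongr
    linarith
  have hTe : (X : ℝ) ^ (2 * e) ≤ 2 ^ e * (T : ℝ) ^ e := by
    calc (X : ℝ) ^ (2 * e) = ((X : ℝ) ^ 2) ^ e := pow_mul _ _ _
      _ ≤ (2 * T) ^ e := pow_le_pow_left₀ (by positivity) hTlow e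
      _ = _ := mul_pow _ _ _
  have h2u : 2 * u ≤ T ^ e := by
    have h2 : (2 : ℝ) * ((δ : ℝ) * (e : ℝ) ^ e * (W : ℝ) ^ 2 * (X : ℝ) ^ (2 * e - 2)) ≤ (T : ℝ) ^ e := by
      have h3 : (2 : ℝ) ^ e * (2 * ((δ : ℝ) * (e : ℝ) ^ e * (W : ℝ) ^ 2 * (X : ℝ) ^ (2 * e - 2))) ≤
          2 ^ e * (T : ℝ) ^ e := by
        refine le_trans ?_ hTe
        calc (2 : ℝ) ^ e * (2 * ((δ : ℝ) * (e : ℝ) ^ e * (W : ℝ) ^ 2 * (X : ℝ) ^ (2 * e - 2)))
            ≤ (2 : ℝ) ^ e * (2 * ((δ : ℝ) * (e : ℝ) ^ e * (Z : ℝ) ^ 2 * (X : ℝ) ^ (2 * e - 2))) := by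
              gcongr
          _ = ((2 ^ (e + 1) * (e : ℝ) ^ e * δ) * (Z : ℝ) ^ 2) * (X : ℝ) ^ (2 * e - 2) := by ring
          _ ≤ (X : ℝ) ^ 2 * (X : ℝ) ^ (2 * e - 2) := mul_le_mul_of_nonneg_right hsm (by positivity)
          _ = (X : ℝ) ^ (2 * e) := by rw [← pow_add]; congr 1; omega
      exact le_of_mul_le_mul_left h3 (by positivity)
    rw [hu]
    exact_mod_cast h2
  have hu0 : 0 < u := by rw [hu]; positivity
  have hTe0 : 0 < T ^ e := by positivity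
  obtain ⟨x, hx⟩ : ∃ x, x + u = T ^ e := ⟨T ^ e - u, by omega⟩
  have hx0 : 0 < x := by omega
  -- the double root
  have hZI : (Z : ℤ) ≤ X := by exact_mod_cast hZXn
  have hZI0 : (0 : ℤ) ≤ Z := Nat.cast_nonneg _
  have hδI : (1 : ℤ) ≤ δ := by exact_mod_cast hδ0
  have hZ2 : (Z : ℤ) ^ 2 ≤ X ^ 2 := pow_le_pow_left₀ hZI0 hZI 2
  obtain ⟨G, hG1, hG2⟩ := double_neg e he2 (-(δ * (Z : ℤ) ^ 2)) ((X : ℤ) ^ 2) (δ * (X : ℤ) ^ 2)
    (by rw [abs_neg, abs_of_nonneg (by positivity)]; exact mul_le_mul_of_nonneg_left hZ2 (by positivity))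
    (by rw [abs_of_nonneg (by positivity)]; nlinarith [sq_nonneg (X : ℤ)])
  have hTI : (T : ℤ) = X ^ 2 - Z ^ 2 := by
    have : ((T + Z ^ 2 : ℕ) : ℤ) = ((X ^ 2 : ℕ) : ℤ) := by rw [hT2]
    push_cast at this
    linarith
  have hezG : (δ : ℤ) ^ e * ((T ^ e + u : ℕ) : ℤ) = (-(δ * (Z : ℤ) ^ 2) - (X : ℤ) ^ 2) ^ 2 * G := by
    rw [← hG1]
    have h2 : -((δ : ℤ) * (Z : ℤ) ^ 2) + ((e : ℤ) - 1) * (X : ℤ) ^ 2 = δ * T := by
      rw [hTI, heδ]; push_cast; ring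
    have h3 : (Z : ℤ) ^ 2 = (δ : ℤ) ^ e * W ^ 2 := by
      rw [hZW, heβ]
      push_cast
      rw [mul_pow, ← pow_mul, mul_comm β 2]
    rw [h2, mul_pow (δ : ℤ) (T : ℤ) e, h3, ← pow_mul (X : ℤ) 2 (e - 1),
      show 2 * (e - 1) = 2 * e - 2 by omega, hu]
    push_cast
    ring
  have hezne : (δ : ℤ) ^ e * ((T ^ e + u : ℕ) : ℤ) ≠ 0 := by positivity
  have hSG : (-(δ * (Z : ℤ) ^ 2) - (X : ℤ) ^ 2) * G ≠ 0 := by
    intro h0
    apply hezne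
    rw [hezG, pow_two, mul_assoc, h0, mul_zero]
  have hz0 : T ^ e + u ≠ 0 := by positivity
  have hRz : (R (T ^ e + u) : ℝ) ≤ 2 * (δ : ℝ) ^ e * K₂ * (X : ℝ) ^ (2 * e - 2) := by
    have h1 := R_le_int (m := T ^ e + u) hz0 hSG (by
      intro p hp hpz
      have hpP : Prime (p : ℤ) := Nat.prime_iff_prime_int.1 hp
      have h2 : (p : ℤ) ∣ (-(δ * (Z : ℤ) ^ 2) - (X : ℤ) ^ 2) ^ 2 * G := by
        rw [← hezG]
        exact Dvd.dvd.mul_left (by exact_mod_cast hpz) _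
      rcases hpP.dvd_mul.1 h2 with h3 | h3
      · exact (hpP.dvd_of_dvd_pow h3).mul_right _
      · exact h3.mul_left _)
    refine h1.trans ?_
    push_cast
    rw [abs_mul]
    have h2 : |-((δ : ℝ) * (Z : ℝ) ^ 2) - (X : ℝ) ^ 2| ≤ 2 * (δ * (X : ℝ) ^ 2) := by
      have hZ2R : (Z : ℝ) ^ 2 ≤ X ^ 2 := pow_le_pow_left₀ hZR.le hZX 2
      have h5 : (δ : ℝ) * (Z : ℝ) ^ 2 ≤ δ * (X : ℝ) ^ 2 := mul_le_mul_of_nonneg_left hZ2R (by positivity)
      have h6 : (X : ℝ) ^ 2 ≤ δ * (X : ℝ) ^ 2 := by nlinarith [sq_nonneg (X : ℝ)]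
      have h7 : (0 : ℝ) ≤ δ * (Z : ℝ) ^ 2 := by positivity
      rw [abs_le]
      constructor <;> nlinarith [sq_nonneg (X : ℝ)]
    have h3 : |(G : ℝ)| ≤ K₂ * (δ * (X : ℝ) ^ 2) ^ (e - 2) := by
      have := (Int.cast_le (R := ℝ)).2 hG2
      push_cast at this
      exact this
    calc |-((δ : ℝ) * (Z : ℝ) ^ 2) - (X : ℝ) ^ 2| * |(G : ℝ)|
        ≤ (2 * (δ * (X : ℝ) ^ 2)) * (K₂ * (δ * (X : ℝ) ^ 2) ^ (e - 2)) := by gcongr
      _ = 2 * K₂ * (δ * (X : ℝ) ^ 2) ^ ((e - 2) + 1) := by ring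
      _ = 2 * (δ : ℝ) ^ (e - 1) * K₂ * (X : ℝ) ^ (2 * e - 2) := by
          rw [show e - 2 + 1 = e - 1 by omega, mul_pow, ← pow_mul,
            show 2 * (e - 1) = 2 * e - 2 by omega]; ring
      _ ≤ 2 * (δ : ℝ) ^ e * K₂ * (X : ℝ) ^ (2 * e - 2) := by
          have : (δ : ℝ) ^ (e - 1) ≤ (δ : ℝ) ^ e := pow_le_pow_right₀ hδR (by omega)
          gcongr
  refine ⟨x, 2 * e ^ β * W * T ^ β * X ^ (e - 1), T ^ e + u, hx0, by positivity, by positivity,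
    ?_, ?_, ?_, ?_, ?_, ?_, ?_, ?_, ?_⟩
  · have h1 : (x : ℤ) = (T : ℤ) ^ e - u := by
      have : ((x + u : ℕ) : ℤ) = ((T ^ e : ℕ) : ℤ) := by rw [hx]
      push_cast at this
      linarith
    have h2 : (δ : ℤ) * ((2 * e ^ β * W * T ^ β * X ^ (e - 1) : ℕ) : ℤ) ^ 2 = 4 * (T : ℤ) ^ e * u := by
      have h3 : (e : ℤ) ^ e = ((e : ℤ) ^ β) ^ 2 := by
        conv_lhs => rw [show (e : ℤ) ^ e = (e : ℤ) ^ (2 * β) by rw [← heβ]]
        rw [← pow_mul, mul_comm β 2]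
      have h4 : (T : ℤ) ^ e = ((T : ℤ) ^ β) ^ 2 := by rw [heβ, ← pow_mul, mul_comm β 2]
      have h5 : (X : ℤ) ^ (2 * e - 2) = ((X : ℤ) ^ (e - 1)) ^ 2 := by
        rw [← pow_mul]; congr 1; omega
      rw [hu]
      push_cast
      rw [h3, h4, h5]
      ring
    rw [neg_mul, sub_neg_eq_add, h2, h1]
    push_cast
    ring
  · have h1 : Odd (x + u) := by rw [hx]; exact hTo.pow
    have h2 : Even u := by
      rw [hu, even_iff_two_dvd, pow_two]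
      exact ((h2W.mul_right _).mul_left _).mul_right _
    exact (Nat.odd_add.1 h1).2 h2
  · exact ⟨e ^ β * W * T ^ β * X ^ (e - 1), by ring⟩
  · rw [Int.isCoprime_iff_gcd_eq_one]
    have key : Nat.Coprime x (δ * (2 * e ^ β * W * T ^ β * X ^ (e - 1))) := by
      apply coprime_of
      intro p hp h1 h2
      have cW : ¬ p ∣ W := by
        intro h3
        have h4 : p ∣ u := by
          rw [hu, pow_two]
          exact ((h3.mul_right _).mul_left _).mul_right _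
        have h5 : p ∣ T ^ e := by rw [← hx]; exact dvd_add h1 h4
        have h6 : p ∣ X ^ 2 := by
          rw [← hT2]
          exact dvd_add (hp.dvd_of_dvd_pow h5) (dvd_pow (h3.trans hWdZ) (by norm_num))
        exact hpZ p hp (hp.dvd_of_dvd_pow h6) (h3.trans hWdZ)
      have cX : ¬ p ∣ X := by
        intro h3
        have h4 : p ∣ u := by
          rw [hu]
          exact (dvd_pow h3 (by omega)).mul_left _
        have h5 : p ∣ T ^ e := by rw [← hx]; exact dvd_add h1 h4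
        have h6 : p ∣ Z ^ 2 := by
          have : p ∣ T + Z ^ 2 := by rw [hT2]; exact dvd_pow h3 (by norm_num)
          exact (Nat.dvd_add_right (hp.dvd_of_dvd_pow h5)).1 this
        exact hpZ p hp h3 (hp.dvd_of_dvd_pow h6)
      have cδ : ¬ p ∣ δ := fun h3 => cW (h3.trans hδW)
      have ce : ¬ p ∣ e := fun h3 => cW (h3.trans heW)
      have c2 : ¬ p ∣ 2 := fun h3 => cW (h3.trans h2W)
      have cT : ¬ p ∣ T := by
        intro h3
        have h4 : p ∣ u := by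
          have : p ∣ x + u := by rw [hx]; exact dvd_pow h3 (by omega)
          exact (Nat.dvd_add_right h1).1 this
        rw [hu] at h4
        rcases hp.dvd_mul.1 h4 with h5 | h5
        · rcases hp.dvd_mul.1 h5 with h6 | h6
          · rcases hp.dvd_mul.1 h6 with h7 | h7
            · exact cδ h7
            · exact ce (hp.dvd_of_dvd_pow h7)
          · exact cW (hp.dvd_of_dvd_pow h6)
        · exact cX (hp.dvd_of_dvd_pow h5)
      rcases hp.dvd_mul.1 h2 with h3 | h3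
      · exact cδ h3
      rcases hp.dvd_mul.1 h3 with h3 | h3
      · rcases hp.dvd_mul.1 h3 with h3 | h3
        · rcases hp.dvd_mul.1 h3 with h3 | h3
          · rcases hp.dvd_mul.1 h3 with h3 | h3
            · exact c2 h3
            · exact ce (hp.dvd_of_dvd_pow h3)
          · exact cW h3
        · exact cT (hp.dvd_of_dvd_pow h3)
      · exact cX (hp.dvd_of_dvd_pow h3)
    have e1 : (-(δ : ℤ) * ((2 * e ^ β * W * T ^ β * X ^ (e - 1) : ℕ) : ℤ)) =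
        -((δ * (2 * e ^ β * W * T ^ β * X ^ (e - 1)) : ℕ) : ℤ) := by push_cast; ring
    rw [e1, Int.gcd_neg, Int.gcd_natCast_natCast]
    exact key
  · refine ⟨(e * δ) * (2 * e ^ β * T ^ β * X ^ (e - 1)), ?_⟩
    rw [hZW, hβ]; ring
  · have h1 : (T : ℝ) ^ e ≤ 2 * x := by
      have : T ^ e ≤ 2 * x := by omega
      exact_mod_cast this
    calc (X : ℝ) ^ (2 * e) ≤ 2 ^ e * (T : ℝ) ^ e := hTe
      _ ≤ 2 ^ e * (2 * x) := by gcongr
      _ = 2 ^ (e + 1) * x := by ring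
      _ ≤ K * x := by gcongr
  · have h1 : (x : ℝ) ≤ (T : ℝ) ^ e := by
      have : x ≤ T ^ e := by omega
      exact_mod_cast this
    calc (x : ℝ) ≤ (T : ℝ) ^ e := h1
      _ ≤ ((X : ℝ) ^ 2) ^ e := by gcongr
      _ = 1 * (X : ℝ) ^ (2 * e) := by rw [← pow_mul, one_mul]
      _ ≤ K * (X : ℝ) ^ (2 * e) := by gcongr
  · push_cast
    calc 2 * (e : ℝ) ^ β * W * (T : ℝ) ^ β * (X : ℝ) ^ (e - 1) * X
        ≤ 2 * (e : ℝ) ^ e * Z * ((X : ℝ) ^ 2) ^ β * (X : ℝ) ^ (e - 1) * X := by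
          have : (e : ℝ) ^ β ≤ (e : ℝ) ^ e := pow_le_pow_right₀ heR (by omega)
          gcongr
      _ = (2 * (e : ℝ) ^ e) * Z * (X : ℝ) ^ (2 * β + (e - 1) + 1) := by ring
      _ = (2 * (e : ℝ) ^ e) * Z * (X : ℝ) ^ (2 * e) := by
          rw [show 2 * β + (e - 1) + 1 = 2 * e by omega]
      _ ≤ K * Z * (X : ℝ) ^ (2 * e) := by gcongr
  · have hn0 : X * Y * Z ≠ 0 := by positivity
    have hw0 : 2 * e * (X + Z) ≠ 0 := by positivity
    have hy0 : 2 * e ^ β * W * T ^ β * X ^ (e - 1) ≠ 0 := by positivity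
    have hRy := R_bound (m := 2 * e ^ β * W * T ^ β * X ^ (e - 1)) hn0 hw0 (by
      intro p hp hd
      rcases hp.dvd_mul.1 hd with h3 | h3
      · rcases hp.dvd_mul.1 h3 with h3 | h3
        · rcases hp.dvd_mul.1 h3 with h3 | h3
          · rcases hp.dvd_mul.1 h3 with h3 | h3
            · exact ((h3.mul_right _).mul_right _).mul_left _
            · exact (((hp.dvd_of_dvd_pow h3).mul_left _).mul_right _).mul_left _
          · exact ((h3.trans hWdZ).mul_left _).mul_right _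
        · have h4 := hp.dvd_of_dvd_pow h3
          rw [hT] at h4
          rcases hp.dvd_mul.1 h4 with h5 | h5
          · exact ((h5.mul_left _).mul_right _).mul_right _
          · exact (h5.mul_left _).mul_left _
      · exact (((hp.dvd_of_dvd_pow h3).mul_right _).mul_right _).mul_right _)
    have hRyz := R_mul_le (2 * e ^ β * W * T ^ β * X ^ (e - 1)) (T ^ e + u) hy0 hz0
    calc (R (2 * e ^ β * W * T ^ β * X ^ (e - 1) * (T ^ e + u)) : ℝ)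
        ≤ ((R (2 * e ^ β * W * T ^ β * X ^ (e - 1)) * R (T ^ e + u) : ℕ) : ℝ) := by
          exact_mod_cast hRyz
      _ = (R (2 * e ^ β * W * T ^ β * X ^ (e - 1)) : ℝ) * R (T ^ e + u) := by push_cast; ring
      _ ≤ ((R (X * Y * Z) * (2 * e * (X + Z)) : ℕ) : ℝ) *
          (2 * (δ : ℝ) ^ e * K₂ * (X : ℝ) ^ (2 * e - 2)) := by
          apply mul_le_mul (by exact_mod_cast hRy) hRz (Nat.cast_nonneg _) (Nat.cast_nonneg _)
      _ = (R (X * Y * Z) * (2 * e * (X + Z))) * (2 * (δ : ℝ) ^ e * K₂ * (X : ℝ) ^ (2 * e - 2)) := by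
          push_cast; ring
      _ ≤ (R (X * Y * Z) * (2 * e * (X + X))) * (2 * (δ : ℝ) ^ e * K₂ * (X : ℝ) ^ (2 * e - 2)) := by
          gcongr
      _ = (8 * e * (δ : ℝ) ^ e * K₂) * R (X * Y * Z) * (X : ℝ) ^ (2 * e - 2 + 1) := by ring
      _ ≤ K * R (X * Y * Z) * (X : ℝ) ^ (2 * e - 1) := by
          rw [show 2 * e - 2 + 1 = 2 * e - 1 by omega]
          have : 8 * (e : ℝ) * (δ : ℝ) ^ e * K₂ ≤ K := by
            rw [hK]
            have h8 : (8 : ℝ) ≤ 2 ^ (e + 3) := by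
              calc (8 : ℝ) = 2 ^ 3 := by norm_num
                _ ≤ _ := pow_le_pow_right₀ (by norm_num) (by omega)
            have h9 : (e : ℝ) ≤ (e : ℝ) ^ (e + 1) := by
              calc (e : ℝ) = (e : ℝ) ^ 1 := (pow_one _).symm
                _ ≤ _ := pow_le_pow_right₀ heR (by omega)
            gcongr
          gcongr

end Pool.Agent.N746.Tw
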