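import Mathlib
import Pool.Agent.N746.Tw.Pos

/-!
# The maps onto the twisted three point sets: positive `D`, the source
-/

namespace Pool.Agent.N746.Tw

open Finset Pool.Agent.N746.Self

theorem src_pos (b : ℕ) (hb : 1 ≤ b) :
    Src ((2 * b + 1 : ℕ) : ℤ) (2 * (2 * b + 1)) ((2 * b) ^ b * ((2 * b) * (2 * b + 1)))
      (8 * (2 * b + 1 : ℕ) ^ (2 * b + 1) *
        (((2 * b : ℕ) : ℝ) ^ (2 * b) + 2 ^ (2 * b) * ((2 * b : ℕ) + 2) ^ (2 * b - 2))) := by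
  intro X Y Z h hY hZ hXY hN hZK
  obtain ⟨e, he⟩ : ∃ e, e = 2 * b := ⟨_, rfl⟩
  obtain ⟨D, hD⟩ : ∃ D, D = e + 1 := ⟨_, rfl⟩
  have hD' : 2 * b + 1 = D := by omega
  have hDb : D = 2 * b + 1 := by omega
  rw [hD'] at hZK hN ⊢
  rw [← he] at hZK hN ⊢
  have he2 : 2 ≤ e := by omega
  have hD0 : 0 < D := by omega
  have he0 : 0 < e := by omega
  have hXZ : Nat.Coprime X Z := coprime_XZ h hXY
  have hX0 : 0 < X := by omega
  set K₂ : ℝ := ((e : ℕ) : ℝ) ^ e + 2 ^ e * ((e : ℕ) + 2) ^ (e - 2) with hK₂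
  have heR : (1 : ℝ) ≤ e := by exact_mod_cast (show 1 ≤ e by omega)
  have hDR : (1 : ℝ) ≤ D := by exact_mod_cast (show 1 ≤ D by omega)
  have hK₂1 : 1 ≤ K₂ := by
    have h1 : (1 : ℝ) ≤ (e : ℝ) ^ e := one_le_pow₀ heR
    have h2 : (0 : ℝ) ≤ 2 ^ e * ((e : ℕ) + 2) ^ (e - 2) := by positivity
    rw [hK₂]; linarith
  have hDD : (1 : ℝ) ≤ (D : ℝ) ^ D := one_le_pow₀ hDR
  set K : ℝ := 8 * (D : ℝ) ^ D * K₂ with hK
  have hKD : 8 * (D : ℝ) ^ D ≤ K := by rw [hK]; nlinarith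
  have hK1 : 1 ≤ K := by linarith
  obtain ⟨k, hk⟩ := hN
  obtain ⟨W, hW⟩ : ∃ W, W = e * D * k := ⟨_, rfl⟩
  have hZW : Z = e ^ b * W := by rw [hk, hW]; ring
  have hW0 : 0 < W := by
    rcases Nat.eq_zero_or_pos W with h0 | h0
    · rw [h0] at hZW; omega
    · exact h0
  have hWdZ : W ∣ Z := ⟨e ^ b, by rw [hZW]; ring⟩
  have hWZ : W ≤ Z := Nat.le_of_dvd hZ hWdZ
  obtain ⟨T, hT⟩ : ∃ T, T = Y * (X + Z) := ⟨_, rfl⟩
  have hT2 : T + Z ^ 2 = X ^ 2 := by rw [hT, ← h]; ring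
  have hT0 : 0 < T := by rw [hT]; positivity
  have hTX : T ≤ X ^ 2 := by omega
  have hXR : (0 : ℝ) < X := by exact_mod_cast hX0
  have hZR : (0 : ℝ) < Z := by exact_mod_cast hZ
  have hTR : (T : ℝ) ≤ (X : ℝ) ^ 2 := by exact_mod_cast hTX
  have hWR : (W : ℝ) ≤ Z := by exact_mod_cast hWZ
  have hZX : (Z : ℝ) ≤ X := by nlinarith
  have hZXn : Z ≤ X := by exact_mod_cast hZX
  -- divisibility
  have h2W : 2 ∣ W := by rw [hW, he]; exact ⟨b * D * k, by ring⟩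
  have hDW : D ∣ W := by rw [hW]; exact ⟨e * k, by ring⟩
  have hXo : Odd X := by
    rw [← Nat.not_even_iff_odd, even_iff_two_dvd]
    intro h2
    have := Nat.dvd_gcd h2 (h2W.trans hWdZ)
    rw [hXZ] at this
    norm_num at this
  have hpZ : ∀ p : ℕ, p.Prime → p ∣ X → p ∣ Z → False := by
    intro p hp h1 h2
    have := Nat.dvd_gcd h1 h2
    rw [hXZ] at this
    exact hp.one_lt.ne' (Nat.dvd_one.1 this)
  obtain ⟨u, hu⟩ : ∃ u, u = D ^ D * W ^ 2 * T ^ e := ⟨_, rfl⟩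
  have h2u : 2 * u ≤ X ^ (2 * D) := by
    have h1 : (2 : ℝ) * (D : ℝ) ^ D * (Z : ℝ) ^ 2 ≤ (X : ℝ) ^ 2 := by
      have h3 : ((Z : ℝ) * K) ^ 2 ≤ (X : ℝ) ^ 2 := pow_le_pow_left₀ (by positivity) hZK 2
      have h4 : 2 * (D : ℝ) ^ D ≤ K ^ 2 := by nlinarith
      have h5 : 2 * (D : ℝ) ^ D * (Z : ℝ) ^ 2 ≤ K ^ 2 * (Z : ℝ) ^ 2 :=
        mul_le_mul_of_nonneg_right h4 (by positivity)
      nlinarith
    have h2 : (2 : ℝ) * ((D : ℝ) ^ D * (W : ℝ) ^ 2 * (T : ℝ) ^ e) ≤ (X : ℝ) ^ (2 * D) := by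
      calc (2 : ℝ) * ((D : ℝ) ^ D * (W : ℝ) ^ 2 * (T : ℝ) ^ e)
          ≤ 2 * ((D : ℝ) ^ D * (Z : ℝ) ^ 2 * ((X : ℝ) ^ 2) ^ e) := by gcongr
        _ = (2 * (D : ℝ) ^ D * (Z : ℝ) ^ 2) * ((X : ℝ) ^ 2) ^ e := by ring
        _ ≤ (X : ℝ) ^ 2 * ((X : ℝ) ^ 2) ^ e := mul_le_mul_of_nonneg_right h1 (by positivity)
        _ = (X : ℝ) ^ (2 * D) := by rw [hD]; ring
    rw [hu]
    exact_mod_cast h2
  have hu0 : 0 < u := by rw [hu]; positivity
  obtain ⟨z, hz⟩ : ∃ z, z + u = X ^ (2 * D) := ⟨X ^ (2 * D) - u, by omega⟩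
  have hz0 : 0 < z := by omega
  -- the double root
  have hZI : (Z : ℤ) ≤ X := by exact_mod_cast hZXn
  have hZI0 : (0 : ℤ) ≤ Z := Nat.cast_nonneg _
  have hDI : (1 : ℤ) ≤ D := by exact_mod_cast hD0
  have hZ2 : (Z : ℤ) ^ 2 ≤ X ^ 2 := pow_le_pow_left₀ hZI0 hZI 2
  obtain ⟨G, hG1, hG2⟩ := double_pos e he2 (D * (Z : ℤ) ^ 2) ((X : ℤ) ^ 2) (D * (X : ℤ) ^ 2)
    (by rw [abs_of_nonneg (by positivity)]; exact mul_le_mul_of_nonneg_left hZ2 (by positivity))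
    (by rw [abs_of_nonneg (by positivity)]; nlinarith [sq_nonneg (X : ℤ)])
  have hTI : (T : ℤ) = X ^ 2 - Z ^ 2 := by
    have : ((T + Z ^ 2 : ℕ) : ℤ) = ((X ^ 2 : ℕ) : ℤ) := by rw [hT2]
    push_cast at this
    linarith
  have hezG : (e : ℤ) ^ e * z = (D * (Z : ℤ) ^ 2 - (X : ℤ) ^ 2) ^ 2 * G := by
    rw [← hG1]
    have h1 : ((z : ℕ) : ℤ) = (X : ℤ) ^ (2 * D) - D ^ D * W ^ 2 * T ^ e := by
      have : ((z + u : ℕ) : ℤ) = ((X ^ (2 * D) : ℕ) : ℤ) := by rw [hz]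
      rw [hu] at this
      push_cast at this
      linarith
    rw [h1, hZW]
    have h2 : ((e : ℤ) + 1) * (X : ℤ) ^ 2 - D * ((e ^ b * W : ℕ) : ℤ) ^ 2 = D * T := by
      rw [hTI, ← hZW, hD]; push_cast; ring
    rw [h2, mul_pow (D : ℤ) (T : ℤ) e]
    have h3 : (((e ^ b * W : ℕ) : ℤ)) ^ 2 = (e : ℤ) ^ e * W ^ 2 := by
      push_cast
      rw [mul_pow, ← pow_mul, mul_comm b 2, ← he]
    rw [h3, show 2 * D = 2 * (e + 1) by rw [hD], pow_mul (X : ℤ) 2 (e + 1)]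
    have h4 : (D : ℤ) ^ D = D * (D : ℤ) ^ e := by
      conv_lhs => rw [show (D : ℤ) ^ D = (D : ℤ) ^ (e + 1) by rw [← hD]]
      rw [pow_succ]; ring
    rw [h4]
    ring
  have hezne : (e : ℤ) ^ e * z ≠ 0 := by positivity
  have hSG : (D * (Z : ℤ) ^ 2 - (X : ℤ) ^ 2) * G ≠ 0 := by
    intro h0
    apply hezne
    rw [hezG, pow_two, mul_assoc, h0, mul_zero]
  have hRz : (R z : ℝ) ≤ 2 * (D : ℝ) ^ e * K₂ * (X : ℝ) ^ (2 * e) := by
    have h1 := R_le_int (m := z) hz0.ne' hSG (by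
      intro p hp hpz
      have hpP : Prime (p : ℤ) := Nat.prime_iff_prime_int.1 hp
      have h2 : (p : ℤ) ∣ (D * (Z : ℤ) ^ 2 - (X : ℤ) ^ 2) ^ 2 * G := by
        rw [← hezG]
        exact Dvd.dvd.mul_left (by exact_mod_cast hpz) _
      rcases hpP.dvd_mul.1 h2 with h3 | h3
      · exact (hpP.dvd_of_dvd_pow h3).mul_right _
      · exact h3.mul_left _)
    refine h1.trans ?_
    push_cast
    rw [abs_mul]
    have h2 : |(D : ℝ) * (Z : ℝ) ^ 2 - (X : ℝ) ^ 2| ≤ 2 * (D * (X : ℝ) ^ 2) := by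
      have hZ2R : (Z : ℝ) ^ 2 ≤ X ^ 2 := pow_le_pow_left₀ hZR.le hZX 2
      have h5 : (D : ℝ) * (Z : ℝ) ^ 2 ≤ D * (X : ℝ) ^ 2 := mul_le_mul_of_nonneg_left hZ2R (by positivity)
      have h6 : (X : ℝ) ^ 2 ≤ D * (X : ℝ) ^ 2 := by nlinarith [sq_nonneg (X : ℝ)]
      have h7 : (0 : ℝ) ≤ D * (Z : ℝ) ^ 2 := by positivity
      rw [abs_le]
      constructor <;> nlinarith [sq_nonneg (X : ℝ)]
    have h3 : |(G : ℝ)| ≤ K₂ * (D * (X : ℝ) ^ 2) ^ (e - 1) := by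
      have := (Int.cast_le (R := ℝ)).2 hG2
      push_cast at this
      exact this
    calc |(D : ℝ) * (Z : ℝ) ^ 2 - (X : ℝ) ^ 2| * |(G : ℝ)|
        ≤ (2 * (D * (X : ℝ) ^ 2)) * (K₂ * (D * (X : ℝ) ^ 2) ^ (e - 1)) := by gcongr
      _ = 2 * K₂ * (D * (X : ℝ) ^ 2) ^ ((e - 1) + 1) := by ring
      _ = 2 * (D : ℝ) ^ e * K₂ * (X : ℝ) ^ (2 * e) := by
          rw [show e - 1 + 1 = e by omega, mul_pow, ← pow_mul]; ring
  refine ⟨X ^ (2 * D) + u, 2 * D ^ b * W * T ^ b * X ^ D, z, by positivity, by positivity, hz0,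
    ?_, ?_, ?_, ?_, ?_, ?_, ?_, ?_, ?_⟩
  · have h1 : (z : ℤ) = (X : ℤ) ^ (2 * D) - u := by
      have : ((z + u : ℕ) : ℤ) = ((X ^ (2 * D) : ℕ) : ℤ) := by rw [hz]
      push_cast at this
      linarith
    have h2 : (D : ℤ) * ((2 * D ^ b * W * T ^ b * X ^ D : ℕ) : ℤ) ^ 2 = 4 * (X : ℤ) ^ (2 * D) * u := by
      have h3 : (D : ℤ) ^ D = D * ((D : ℤ) ^ b) ^ 2 := by
        conv_lhs => rw [show (D : ℤ) ^ D = (D : ℤ) ^ (2 * b + 1) by rw [← hDb]]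
        rw [pow_succ, ← pow_mul, mul_comm b 2]; ring
      have h4 : (T : ℤ) ^ e = ((T : ℤ) ^ b) ^ 2 := by rw [he, ← pow_mul, mul_comm b 2]
      have h5 : (X : ℤ) ^ (2 * D) = ((X : ℤ) ^ D) ^ 2 := by rw [← pow_mul, mul_comm D 2]
      rw [hu]
      push_cast
      rw [h3, h4, h5]
      ring
    rw [h2, h1]
    push_cast
    ring
  · apply (hXo.pow).add_even
    rw [hu, even_iff_two_dvd]
    exact ((h2W.mul_left _ |>.mul_left _ : 2 ∣ D ^ D * (W * W)) |> fun h => by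
      rw [pow_two]; exact h.mul_right _)
  · exact ⟨D ^ b * W * T ^ b * X ^ D, by ring⟩
  · rw [Int.isCoprime_iff_gcd_eq_one]
    have key : Nat.Coprime (X ^ (2 * D) + u) (D * (2 * D ^ b * W * T ^ b * X ^ D)) := by
      apply coprime_of
      intro p hp h1 h2
      have cW : ¬ p ∣ W := by
        intro h3
        have h4 : p ∣ u := by
          rw [hu, pow_two]
          exact ((h3.mul_right _).mul_left _).mul_right _
        have h5 : p ∣ X ^ (2 * D) := (Nat.dvd_add_left h4).1 h1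
        exact hpZ p hp (hp.dvd_of_dvd_pow h5) (h3.trans hWdZ)
      have cT : ¬ p ∣ T := by
        intro h3
        have h4 : p ∣ u := by
          rw [hu]
          exact (dvd_pow h3 (by omega)).mul_left _
        have h5 : p ∣ X ^ (2 * D) := (Nat.dvd_add_left h4).1 h1
        have h6 := hp.dvd_of_dvd_pow h5
        have h7 : p ∣ Z ^ 2 := by
          have : p ∣ T + Z ^ 2 := by rw [hT2]; exact dvd_pow h6 (by norm_num)
          exact (Nat.dvd_add_right h3).1 this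
        exact hpZ p hp h6 (hp.dvd_of_dvd_pow h7)
      have cD : ¬ p ∣ D := fun h3 => cW (h3.trans hDW)
      have c2 : ¬ p ∣ 2 := fun h3 => cW (h3.trans h2W)
      have cX : ¬ p ∣ X := by
        intro h3
        have h4 : p ∣ u := (Nat.dvd_add_right (dvd_pow h3 (by omega))).1 h1
        rw [hu] at h4
        rcases hp.dvd_mul.1 h4 with h5 | h5
        · rcases hp.dvd_mul.1 h5 with h6 | h6
          · exact cD (hp.dvd_of_dvd_pow h6)
          · exact cW (hp.dvd_of_dvd_pow h6)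
        · exact cT (hp.dvd_of_dvd_pow h5)
      rcases hp.dvd_mul.1 h2 with h3 | h3
      · exact cD h3
      rcases hp.dvd_mul.1 h3 with h3 | h3
      · rcases hp.dvd_mul.1 h3 with h3 | h3
        · rcases hp.dvd_mul.1 h3 with h3 | h3
          · rcases hp.dvd_mul.1 h3 with h3 | h3
            · exact c2 h3
            · exact cD (hp.dvd_of_dvd_pow h3)
          · exact cW h3
        · exact cT (hp.dvd_of_dvd_pow h3)
      · exact cX (hp.dvd_of_dvd_pow h3)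
    have e1 : ((D : ℤ) * ((2 * D ^ b * W * T ^ b * X ^ D : ℕ) : ℤ)) =
        ((D * (2 * D ^ b * W * T ^ b * X ^ D) : ℕ) : ℤ) := by push_cast; ring
    rw [e1, Int.gcd_natCast_natCast]
    exact key
  · refine ⟨(e * D) * (2 * D ^ b * T ^ b * X ^ D), ?_⟩
    rw [hZW]; ring
  · push_cast
    have : (0 : ℝ) ≤ u := Nat.cast_nonneg _
    have h1 : (0 : ℝ) ≤ (X : ℝ) ^ (2 * D) := by positivity
    nlinarith
  · push_cast
    have h1 : (u : ℝ) ≤ (X : ℝ) ^ (2 * D) := by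
      have : u ≤ X ^ (2 * D) := by omega
      exact_mod_cast this
    have h2 : (0 : ℝ) ≤ (X : ℝ) ^ (2 * D) := by positivity
    nlinarith
  · push_cast
    calc 2 * (D : ℝ) ^ b * W * (T : ℝ) ^ b * (X : ℝ) ^ D * X
        ≤ 2 * (D : ℝ) ^ D * Z * ((X : ℝ) ^ 2) ^ b * (X : ℝ) ^ D * X := by
          have : (D : ℝ) ^ b ≤ (D : ℝ) ^ D := pow_le_pow_right₀ hDR (by omega)
          gcongr
      _ = (2 * (D : ℝ) ^ D) * Z * (X : ℝ) ^ (2 * b + 1 + D) := by ring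
      _ = (2 * (D : ℝ) ^ D) * Z * (X : ℝ) ^ (2 * D) := by rw [hD', ← two_mul]
      _ ≤ K * Z * (X : ℝ) ^ (2 * D) := by
          gcongr
          linarith
  · have hn0 : X * Y * Z ≠ 0 := by positivity
    have hw0 : 2 * D * (X + Z) ≠ 0 := by positivity
    have hy0 : 2 * D ^ b * W * T ^ b * X ^ D ≠ 0 := by positivity
    have hRy := R_bound (m := 2 * D ^ b * W * T ^ b * X ^ D) hn0 hw0 (by
      intro p hp hd
      rcases hp.dvd_mul.1 hd with h3 | h3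
      · rcases hp.dvd_mul.1 h3 with h3 | h3
        · rcases hp.dvd_mul.1 h3 with h3 | h3
          · rcases hp.dvd_mul.1 h3 with h3 | h3
            · exact ((h3.mul_right _).mul_right _).mul_left _
            · exact (((hp.dvd_of_dvd_pow h3).mul_left _).mul_right _).mul_left _
          · exact ((h3.trans hWdZ).mul_left _).mul_right _
        · have h4 := hp.dvd_of_dvd_pow h3
          rw [hT] at h4
          rcases hp.dvd_mul.1 h4 with h5 | h5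
          · exact ((h5.mul_left _).mul_right _).mul_right _
          · exact (h5.mul_left _).mul_left _
      · exact (((hp.dvd_of_dvd_pow h3).mul_right _).mul_right _).mul_right _)
    have hRyz := R_mul_le (2 * D ^ b * W * T ^ b * X ^ D) z hy0 hz0.ne'
    calc (R (2 * D ^ b * W * T ^ b * X ^ D * z) : ℝ)
        ≤ ((R (2 * D ^ b * W * T ^ b * X ^ D) * R z : ℕ) : ℝ) := by exact_mod_cast hRyz
      _ = (R (2 * D ^ b * W * T ^ b * X ^ D) : ℝ) * R z := by push_cast; ring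
      _ ≤ ((R (X * Y * Z) * (2 * D * (X + Z)) : ℕ) : ℝ) * (2 * (D : ℝ) ^ e * K₂ * (X : ℝ) ^ (2 * e)) := by
          apply mul_le_mul (by exact_mod_cast hRy) hRz (Nat.cast_nonneg _) (Nat.cast_nonneg _)
      _ = (R (X * Y * Z) * (2 * D * (X + Z))) * (2 * (D : ℝ) ^ e * K₂ * (X : ℝ) ^ (2 * e)) := by
          push_cast; ring
      _ ≤ (R (X * Y * Z) * (2 * D * (X + X))) * (2 * (D : ℝ) ^ e * K₂ * (X : ℝ) ^ (2 * e)) := by
          gcongr
      _ = 8 * (D : ℝ) ^ (e + 1) * K₂ * R (X * Y * Z) * (X : ℝ) ^ (2 * e + 1) := by ring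
      _ = K * R (X * Y * Z) * (X : ℝ) ^ (2 * D - 1) := by
          rw [hK]
          have e1 : (D : ℝ) ^ (e + 1) = (D : ℝ) ^ D := by rw [← hD]
          rw [e1, show 2 * D - 1 = 2 * e + 1 by omega]

end Pool.Agent.N746.Tw
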