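import Mathlib
import Pool.Agent.N746.Tw.Good
import Pool.Agent.N746.Tw.Pos2
import Pool.Agent.N746.Tw.Neg
import Pool.Agent.N746.Self.General

/-!
# The abc conjecture and the three points `∞, √D, -√D`
-/

namespace Pool.Agent.N746.Tw

open Finset Filter Pool.Agent.N746.Self

theorem exists_src (D : ℤ) (hD : Odd D) :
    ∃ (d N₀ : ℕ) (K : ℝ), 1 ≤ d ∧ 1 ≤ N₀ ∧ 1 ≤ K ∧ Src D d N₀ K := by
  obtain ⟨t, rfl⟩ := hD
  rcases lt_trichotomy t 0 with ht | ht | ht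
  · obtain ⟨m, hm⟩ : ∃ m : ℕ, t = -(m : ℤ) - 1 := ⟨(-t - 1).toNat, by omega⟩
    have e : 2 * t + 1 = -((2 * m + 1 : ℕ) : ℤ) := by rw [hm]; push_cast; ring
    rw [e]
    refine ⟨_, _, _, by omega, ?_, ?_, src_neg m⟩
    · have : 0 < (2 * m + 1) ^ (m + 1) * ((2 * (m + 1)) * (2 * m + 1)) := by positivity
      omega
    · have h1 : (1 : ℝ) ≤ (2 * (m + 1) : ℕ) := by exact_mod_cast (show 1 ≤ 2 * (m + 1) by omega)
      have h2 : (1 : ℝ) ≤ (2 * m + 1 : ℕ) := by exact_mod_cast (show 1 ≤ 2 * m + 1 by omega)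
      have h3 : (1 : ℝ) ≤ ((2 * (m + 1) : ℕ) : ℝ) + 2 := by linarith
      have a1 : (1 : ℝ) ≤ 2 ^ (2 * (m + 1) + 3) := one_le_pow₀ (by norm_num)
      have a2 : (1 : ℝ) ≤ ((2 * (m + 1) : ℕ) : ℝ) ^ (2 * (m + 1) + 1) := one_le_pow₀ h1
      have a3 : (1 : ℝ) ≤ ((2 * m + 1 : ℕ) : ℝ) ^ (2 * (m + 1)) := one_le_pow₀ h2
      have a4 : (1 : ℝ) ≤ 2 ^ (2 * (m + 1)) := one_le_pow₀ (by norm_num)
      have a5 : (1 : ℝ) ≤ (((2 * (m + 1) : ℕ) : ℝ) + 2) ^ (2 * (m + 1) - 2) := one_le_pow₀ h3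
      exact one_le_mul_of_one_le_of_one_le (one_le_mul_of_one_le_of_one_le
        (one_le_mul_of_one_le_of_one_le a1 a2) a3) (one_le_mul_of_one_le_of_one_le a4 a5)
  · subst ht
    exact ⟨2, 2, 4, by norm_num, by norm_num, by norm_num, by simpa using src_one⟩
  · obtain ⟨b, hb⟩ : ∃ b : ℕ, t = b := ⟨t.toNat, by omega⟩
    have hb1 : 1 ≤ b := by omega
    have e : 2 * t + 1 = ((2 * b + 1 : ℕ) : ℤ) := by rw [hb]; push_cast; ring
    rw [e]
    refine ⟨_, _, _, by omega, ?_, ?_, src_pos b hb1⟩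
    · have : 0 < (2 * b) ^ b * ((2 * b) * (2 * b + 1)) := by positivity
      omega
    · have h1 : (1 : ℝ) ≤ (2 * b : ℕ) := by exact_mod_cast (show 1 ≤ 2 * b by omega)
      have h2 : (1 : ℝ) ≤ (2 * b + 1 : ℕ) := by exact_mod_cast (show 1 ≤ 2 * b + 1 by omega)
      have a1 : (1 : ℝ) ≤ ((2 * b + 1 : ℕ) : ℝ) ^ (2 * b + 1) := one_le_pow₀ h2
      have a2 : (1 : ℝ) ≤ ((2 * b : ℕ) : ℝ) ^ (2 * b) := one_le_pow₀ h1
      have a3 : (0 : ℝ) ≤ 2 ^ (2 * b) * (((2 * b : ℕ) : ℝ) + 2) ^ (2 * b - 2) := by positivity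
      exact one_le_mul_of_one_le_of_one_le (by linarith) (by linarith)

theorem solve (d : ℕ) (hd : 1 ≤ d) (ε : ℝ) (hε : 0 < ε) : ∃ ε' : ℝ, 0 < ε' ∧
    ∀ K κ₁ : ℝ, 1 ≤ K → 1 ≤ κ₁ → ∃ κ : ℝ, 1 ≤ κ ∧ ∀ c r : ℝ, 1 ≤ c → 1 ≤ r →
      c ^ d ≤ K * κ₁ * (K * r * c ^ (d - 1)) ^ (1 + ε') → c ≤ κ * r ^ (1 + ε) := by
  set E : ℝ := 1 + d * (1 + ε) with hE
  have hE1 : 1 ≤ E := by
    rw [hE]
    have : (0:ℝ) ≤ d * (1 + ε) := by positivity
    linarith
  set ε' : ℝ := ε / E with hε'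
  have hε'0 : 0 < ε' := by rw [hε']; positivity
  refine ⟨ε', hε'0, fun K κ₁ hK hκ₁ => ?_⟩
  have hεE : ε' * E = ε := by rw [hε']; field_simp
  set e : ℝ := 1 - d * ε' with he
  have hkey : (1 + ε) * e = 1 + ε' := by
    rw [he]
    have : ε' * (1 + d * (1 + ε)) = ε := by rw [← hE]; exact hεE
    linarith
  have he0 : 0 < e := by
    have : 0 < (1 + ε) * e := by rw [hkey]; linarith
    exact (mul_pos_iff_of_pos_left (by linarith)).1 this
  set C : ℝ := Real.log K + Real.log κ₁ + (1 + ε') * Real.log K with hC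
  have hlK : 0 ≤ Real.log K := Real.log_nonneg hK
  have hlκ : 0 ≤ Real.log κ₁ := Real.log_nonneg hκ₁
  have hC0 : 0 ≤ C := by rw [hC]; positivity
  refine ⟨Real.exp (C / e), Real.one_le_exp (by positivity), fun c r hc hr hcr => ?_⟩
  have hc0 : 0 < c := by linarith
  have hr0 : 0 < r := by linarith
  have hK0 : 0 < K := by linarith
  have hκ0 : 0 < κ₁ := by linarith
  set ℓ := Real.log c with hℓ
  set ρ := Real.log r with hρ
  have hℓ0 : 0 ≤ ℓ := Real.log_nonneg hc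
  have hρ0 : 0 ≤ ρ := Real.log_nonneg hr
  have l4 : d * ℓ ≤ C + (1 + ε') * (ρ + (d - 1) * ℓ) := by
    have h1 := Real.log_le_log (by positivity) hcr
    have hp : 0 < K * r * c ^ (d - 1) := by positivity
    rw [Real.log_pow, Real.log_mul (by positivity) (Real.rpow_pos_of_pos hp _).ne',
      Real.log_mul (by positivity) (by positivity), Real.log_rpow hp,
      Real.log_mul (by positivity) (by positivity), Real.log_mul (by positivity) (by positivity),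
      Real.log_pow, Nat.cast_sub hd, Nat.cast_one] at h1
    rw [hC]
    linarith
  have l5 : e * ℓ ≤ C + (1 + ε') * ρ := by
    have : (d - 1 : ℝ) * ε' * ℓ ≤ d * ε' * ℓ := by
      apply mul_le_mul_of_nonneg_right _ hℓ0
      apply mul_le_mul_of_nonneg_right _ hε'0.le
      linarith
    rw [he]
    nlinarith
  have l6 : ℓ ≤ C / e + (1 + ε) * ρ := by
    have : ℓ ≤ (C + (1 + ε') * ρ) / e := by
      rw [le_div_iff₀ he0]; linarith
    calc ℓ ≤ (C + (1 + ε') * ρ) / e := this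
      _ = C / e + (1 + ε) * ρ := by
        rw [← hkey]; field_simp
  rw [Real.rpow_def_of_pos hr0, ← Real.exp_add, ← Real.exp_log hc0]
  apply Real.exp_le_exp.2
  rw [← hℓ, ← hρ]
  linarith

/-- the triples near the cusp suffice -/
theorem near_cusp (N₀ : ℕ) (hN₀ : 1 ≤ N₀) (δ : ℝ) (hδ : 0 < δ)
    (h : ABC fun a _ c => N₀ ∣ a ∧ (a : ℝ) ≤ δ * c) : ABC fun _ _ _ => True := by
  have hg : Good (fun _ _ _ => True) 1 1 1 1 := by
    intro X Y Z h hY hZ hXY _ _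
    refine ⟨Z, Y, X, hZ, hY, h, ?_, trivial, by simp, by simp, by simp, by simp, ?_⟩
    · have : Nat.Coprime X Z := coprime_XZ h hXY
      rw [← h] at hXY
      simpa using hXY
    · have e : Z * Y * X = X * Y * Z := by ring
      rw [e]
      simp
  have hY : ∀ i : ℕ, (1 : ℝ) < 2 ^ (i + 1) := fun i => one_lt_pow₀ (by norm_num) (by omega)
  have hT : Tendsto (fun i : ℕ => (2 : ℝ) ^ (i + 1)) atTop atTop :=
    (tendsto_pow_atTop_atTop_of_one_lt (by norm_num)).comp (tendsto_add_atTop_nat 1)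
  refine (lift (fun _ _ _ => True) 1 1 le_rfl le_rfl 1 1 one_pos le_rfl hg N₀ 2 hN₀ δ hδ
    (fun i => 2 ^ (i + 1)) hY hT (fun i => ?_)).1 ?_
  · show (2 : ℝ) ^ (i + 1 + 1) ≤ (2 ^ (i + 1)) ^ 2
    rw [← pow_mul]
    exact pow_le_pow_right₀ (by norm_num) (by omega)
  · intro ε hε
    obtain ⟨κ, hκ⟩ := h ε hε
    exact ⟨κ, fun a b c ha hb hab habc hT => hκ a b c ha hb hab habc ⟨hT.2.1, hT.2.2.1⟩⟩

theorem abc_of_three (D : ℤ) (hD : Odd D) (h : ThreePoints D) : ABC fun _ _ _ => True := by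
  obtain ⟨d, N₀, K, hd, hN₀, hK, hS⟩ := exists_src D hD
  have hK0 : 0 < K := by linarith
  refine near_cusp N₀ hN₀ (1 / K) (by positivity) ?_
  intro ε hε
  obtain ⟨ε', hε', hsol⟩ := solve d hd ε hε
  obtain ⟨κ, hκ⟩ := h ε' hε'
  obtain ⟨κ₂, hκ₂1, hκ₂⟩ := hsol K (max κ 1) hK (le_max_right _ _)
  refine ⟨κ₂, fun a b c ha hb hab habc hT => ?_⟩
  obtain ⟨hNa, hac⟩ := hT
  have hc0 : 0 < c := by omega
  have hcR : (1 : ℝ) ≤ c := by exact_mod_cast hc0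
  have haK : (a : ℝ) * K ≤ c := by
    have h0 := mul_le_mul_of_nonneg_right hac hK0.le
    have e0 : 1 / K * (c : ℝ) * K = c := by field_simp
    linarith
  have hcb : Nat.Coprime c b := by rw [← habc]; simpa using hab
  obtain ⟨x, y, z, hx, hy, hz, hxyz, _, _, hcop, _, hXx, _, _, hR⟩ :=
    hS c b a habc hb ha hcb hNa haK
  have hx0 : (0 : ℝ) < x := by exact_mod_cast hx
  have hy0 : (0 : ℝ) < y := by exact_mod_cast hy
  have hne : (y : ℤ) * ((x : ℤ) ^ 2 - D * (y : ℤ) ^ 2) ≠ 0 := by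
    rw [hxyz]
    positivity
  have h1 := hκ x y (hcop.of_mul_right_right) hne
  have hR1 : R ((y : ℤ) * ((x : ℤ) ^ 2 - D * (y : ℤ) ^ 2)).natAbs ≤ R (y * z) := by
    rw [hxyz]
    have e : ((y : ℤ) * (z : ℤ) ^ 2).natAbs = y * z ^ 2 := by
      rw [Int.natAbs_mul, Int.natAbs_pow, Int.natAbs_natCast, Int.natAbs_natCast]
    rw [e]
    apply R_le_of_primes (by positivity)
    intro p hp hpd
    rcases hp.dvd_mul.1 hpd with h2 | h2
    · exact h2.mul_right _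
    · exact (hp.dvd_of_dvd_pow h2).mul_left _
  have hR1R : (R ((y : ℤ) * ((x : ℤ) ^ 2 - D * (y : ℤ) ^ 2)).natAbs : ℝ) ≤ R (y * z) := by
    exact_mod_cast hR1
  have hxle : (x : ℝ) ≤ max κ 1 * (R (y * z) : ℝ) ^ (1 + ε') := by
    calc (x : ℝ) = |((x : ℤ) : ℝ)| := by rw [Int.cast_natCast, abs_of_pos hx0]
      _ ≤ _ := (le_max_left _ _).trans h1
      _ ≤ max κ 1 * (R ((y : ℤ) * ((x : ℤ) ^ 2 - D * (y : ℤ) ^ 2)).natAbs : ℝ) ^ (1 + ε') :=
          mul_le_mul_of_nonneg_right (le_max_left _ _) (Real.rpow_nonneg (Nat.cast_nonneg _) _)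
      _ ≤ _ := by
          apply mul_le_mul_of_nonneg_left _ (le_trans zero_le_one (le_max_right _ _))
          exact Real.rpow_le_rpow (Nat.cast_nonneg _) hR1R (by linarith)
  have hR1' : (1 : ℝ) ≤ R (a * b * c) := by exact_mod_cast R_pos _
  apply hκ₂ _ _ hcR hR1'
  have e : c * b * a = a * b * c := by ring
  rw [e] at hR
  calc (c : ℝ) ^ d ≤ K * x := hXx
    _ ≤ K * (max κ 1 * (R (y * z) : ℝ) ^ (1 + ε')) := mul_le_mul_of_nonneg_left hxle hK0.le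
    _ = K * max κ 1 * (R (y * z) : ℝ) ^ (1 + ε') := by ring
    _ ≤ K * max κ 1 * (K * R (a * b * c) * (c : ℝ) ^ (d - 1)) ^ (1 + ε') := by
        apply mul_le_mul_of_nonneg_left _ (by positivity)
        exact Real.rpow_le_rpow (Nat.cast_nonneg _) hR (by linarith)

theorem three_of_abc (D : ℤ) (hD : D ≠ 0) (h : ABC fun _ _ _ => True) : ThreePoints D := by
  intro ε hε
  obtain ⟨ε', hε', hsol⟩ := solve 2 (by norm_num) ε hε
  obtain ⟨κ, hκ⟩ := h ε' hε'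
  have hD1 : (1 : ℝ) ≤ |(D : ℝ)| := by exact_mod_cast Int.one_le_abs hD
  obtain ⟨κ₂, hκ₂1, hκ₂⟩ := hsol |(D : ℝ)| (max κ 1) hD1 (le_max_right _ _)
  refine ⟨κ₂, fun x y hxy hne => ?_⟩
  have hy : y ≠ 0 := left_ne_zero_of_mul hne
  have hw : x ^ 2 - D * y ^ 2 ≠ 0 := right_ne_zero_of_mul hne
  have hRp : (1 : ℝ) ≤ R (y * (x ^ 2 - D * y ^ 2)).natAbs := by exact_mod_cast R_pos _
  have hRe : (1 : ℝ) ≤ (R (y * (x ^ 2 - D * y ^ 2)).natAbs : ℝ) ^ (1 + ε) :=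
    Real.one_le_rpow hRp (by linarith)
  rcases eq_or_ne x 0 with hx | hx
  · have hy1 : |(y : ℝ)| = 1 := by
      rw [hx, isCoprime_zero_left, Int.isUnit_iff_abs_eq] at hxy
      exact_mod_cast hxy
    have hm : max |(x : ℝ)| |(y : ℝ)| = 1 := by
      rw [hx, hy1, Int.cast_zero, abs_zero, max_eq_right zero_le_one]
    rw [hm]
    exact one_le_mul_of_one_le_of_one_le hκ₂1 hRe
  · set M : ℝ := max |(x : ℝ)| |(y : ℝ)| with hM
    have hx1 : (1 : ℝ) ≤ |(x : ℝ)| := by exact_mod_cast Int.one_le_abs hx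
    have hM1 : 1 ≤ M := hx1.trans (le_max_left _ _)
    apply hκ₂ M _ hM1 hRp
    have hβ : -(D * y ^ 2) ≠ 0 := neg_ne_zero.2 (mul_ne_zero hD (pow_ne_zero 2 hy))
    have hα : x ^ 2 ≠ 0 := pow_ne_zero 2 hx
    obtain ⟨m, a, b, c, hm, ha, hb, hab, habc, _, hmα, hmβ, hαc, hβc, hpr⟩ :=
      arrange (x ^ 2) (-(D * y ^ 2)) hα hβ (by rwa [← sub_eq_add_neg])
    have hc0 : 0 < c := by omega
    -- `m ∣ D`
    have hmD : (m : ℤ) ∣ D := by
      have h1 : IsCoprime (m : ℤ) (y ^ 2) := by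
        have : IsCoprime (x ^ 2) (y ^ 2) := hxy.pow
        exact this.of_isCoprime_of_dvd_left hmα
      rw [dvd_neg] at hmβ
      exact h1.dvd_of_dvd_mul_right hmβ
    have hmR : (m : ℝ) ≤ |(D : ℝ)| := by
      have h1 : m ≤ D.natAbs := Nat.le_of_dvd (Int.natAbs_pos.2 hD) (Int.natCast_dvd.1 hmD)
      have h2 : (m : ℝ) ≤ ((D.natAbs : ℕ) : ℝ) := by exact_mod_cast h1
      rwa [Nat.cast_natAbs, Int.cast_abs] at h2
    have hMc : M ^ 2 ≤ |(D : ℝ)| * c := by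
      have h1 : |(x : ℝ)| ^ 2 ≤ m * c := by
        have : ((x ^ 2).natAbs : ℝ) ≤ m * c := by exact_mod_cast hαc
        rwa [Nat.cast_natAbs, Int.cast_abs, Int.cast_pow, abs_pow] at this
      have h2 : |(y : ℝ)| ^ 2 ≤ m * c := by
        have : ((-(D * y ^ 2)).natAbs : ℝ) ≤ m * c := by exact_mod_cast hβc
        rw [Nat.cast_natAbs, Int.cast_abs, Int.cast_neg, abs_neg, Int.cast_mul, Int.cast_pow, abs_mul,
          abs_pow] at this
        refine le_trans ?_ this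
        exact le_mul_of_one_le_left (by positivity) hD1
      have h3 : M ^ 2 ≤ m * c := by
        rcases max_choice |(x : ℝ)| |(y : ℝ)| with h | h
        · rw [hM, h]; exact h1
        · rw [hM, h]; exact h2
      exact h3.trans (mul_le_mul_of_nonneg_right hmR (Nat.cast_nonneg _))
    have hRabc : (R (a * b * c) : ℝ) ≤ |(D : ℝ)| * R (y * (x ^ 2 - D * y ^ 2)).natAbs * M := by
      have h0 : R (a * b * c) ≤ R (y * (x ^ 2 - D * y ^ 2)).natAbs * (D.natAbs * x.natAbs) := by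
        apply R_bound (Int.natAbs_ne_zero.2 hne)
          (mul_ne_zero (Int.natAbs_ne_zero.2 hD) (Int.natAbs_ne_zero.2 hx))
        intro p hp hpd
        have h1 := hpr p hp hpd
        rw [← sub_eq_add_neg] at h1
        have h2 : (p : ℤ) ∣ (y * (x ^ 2 - D * y ^ 2) * (D * x)) ^ 2 := by
          refine h1.trans ⟨-(D * (x ^ 2 - D * y ^ 2)), ?_⟩
          ring
        have h3 := (Nat.prime_iff_prime_int.1 hp).dvd_of_dvd_pow h2
        rw [← Int.natAbs_mul, ← Int.natAbs_mul]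
        exact Int.natCast_dvd.1 h3
      have h1 : (R (a * b * c) : ℝ) ≤ R (y * (x ^ 2 - D * y ^ 2)).natAbs *
          (((D.natAbs : ℕ) : ℝ) * ((x.natAbs : ℕ) : ℝ)) := by exact_mod_cast h0
      rw [Nat.cast_natAbs, Nat.cast_natAbs, Int.cast_abs, Int.cast_abs] at h1
      calc (R (a * b * c) : ℝ) ≤ _ := h1
        _ = |(D : ℝ)| * R (y * (x ^ 2 - D * y ^ 2)).natAbs * |(x : ℝ)| := by ring
        _ ≤ _ := mul_le_mul_of_nonneg_left (le_max_left _ _) (by positivity)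
    have h1 := hκ a b c ha hb hab habc trivial
    calc M ^ 2 ≤ |(D : ℝ)| * c := hMc
      _ ≤ |(D : ℝ)| * (max κ 1 * (R (a * b * c) : ℝ) ^ (1 + ε')) := by
          apply mul_le_mul_of_nonneg_left _ (abs_nonneg _)
          exact h1.trans (mul_le_mul_of_nonneg_right (le_max_left _ _)
            (Real.rpow_nonneg (Nat.cast_nonneg _) _))
      _ = |(D : ℝ)| * max κ 1 * (R (a * b * c) : ℝ) ^ (1 + ε') := by ring
      _ ≤ |(D : ℝ)| * max κ 1 * (|(D : ℝ)| * R (y * (x ^ 2 - D * y ^ 2)).natAbs * M) ^ (1 + ε') := by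
          apply mul_le_mul_of_nonneg_left _ (by positivity)
          exact Real.rpow_le_rpow (Nat.cast_nonneg _) hRabc (by linarith)
      _ = _ := by norm_num

theorem pell_iff (D : ℤ) (hD : Odd D) (n : ℕ) (hn : 1 ≤ n) (N r : ℕ) (hN : 1 ≤ N) (δ : ℝ) (hδ : 0 < δ)
    (Y : ℕ → ℝ) (hY : ∀ i, 1 < Y i) (hYt : Tendsto Y atTop atTop) (hYr : ∀ i, Y (i + 1) ≤ (Y i) ^ r) :
    (ABC fun a b c => Pell D n a b c ∧ N ∣ a ∧ (a : ℝ) ≤ δ * c ∧
      ∃ i, Y i ≤ c ∧ (c : ℝ) ≤ (Y i) ^ (1 + δ)) ↔ ABC fun _ _ _ => True := by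
  have hD0 : D ≠ 0 := by rintro rfl; exact absurd hD (by decide)
  obtain ⟨d, N₀, K, hd, hN₀, hK, hS⟩ := exists_src D hD
  have hD1 : (1 : ℝ) ≤ |(D : ℝ)| := by exact_mod_cast Int.one_le_abs hD0
  have hnR : (1 : ℝ) ≤ n := by exact_mod_cast hn
  have hK0 : 0 < K := by linarith
  refine lift (Pell D n) (2 * d * n) N₀ ?_ hN₀ _ _ ?_ ?_ (good_pell D hD0 d N₀ K hd hK hS n hn)
    N r hN δ hδ Y hY hYt hYr
  · have : 0 < 2 * d * n := by positivity
    omega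
  · positivity
  · have a1 : (1 : ℝ) ≤ (n : ℝ) ^ 2 := one_le_pow₀ hnR
    have a2 : (1 : ℝ) ≤ 2 ^ n := one_le_pow₀ (by norm_num)
    have a3 : (1 : ℝ) ≤ K ^ (2 * n + 2) := one_le_pow₀ hK
    exact one_le_mul_of_one_le_of_one_le (one_le_mul_of_one_le_of_one_le
      (one_le_mul_of_one_le_of_one_le (one_le_mul_of_one_le_of_one_le (by norm_num) a1) hD1) a2) a3

end Pool.Agent.N746.Tw
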