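import Mathlib
import Pool.Agent.N746.Tw.Main

/-!
# Scaling `D` by a power of `4`
-/

namespace Pool.Agent.N746.Tw

open Finset Filter Pool.Agent.N746.Self

theorem three_scale (m : ℤ) (k : ℕ) (h : ThreePoints (4 ^ k * m)) : ThreePoints m := by
  intro ε hε
  obtain ⟨κ, hκ⟩ := h ε hε
  refine ⟨2 ^ k * (max κ 1 * 2 ^ (1 + ε)), fun x y hxy hne => ?_⟩
  have hy : y ≠ 0 := left_ne_zero_of_mul hne
  have hw : x ^ 2 - m * y ^ 2 ≠ 0 := right_ne_zero_of_mul hne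
  -- the greatest common divisor
  set g : ℤ := (Int.gcd (2 ^ k * x) y : ℤ) with hg
  obtain ⟨X, hX⟩ : g ∣ 2 ^ k * x := Int.gcd_dvd_left _ _
  obtain ⟨Y, hY⟩ : g ∣ y := Int.gcd_dvd_right _ _
  have hg0 : g ≠ 0 := by
    intro h0
    rw [h0, zero_mul] at hY
    exact hy hY
  have hgpos : 0 < g := lt_of_le_of_ne (by rw [hg]; positivity) hg0.symm
  have hg2 : g ∣ 2 ^ k := by
    have h1 : IsCoprime g x := (hxy.symm).of_isCoprime_of_dvd_left ⟨Y, hY⟩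
    exact h1.dvd_of_dvd_mul_right ⟨X, hX⟩
  have hgle : g ≤ 2 ^ k := Int.le_of_dvd (by positivity) hg2
  have hXY : IsCoprime X Y := by
    have h1 : Int.gcd X Y = 1 := by
      have h2 : (Int.gcd (2 ^ k * x) y : ℤ) = Int.gcd (g * X) (g * Y) := by rw [← hX, ← hY]
      rw [Int.gcd_mul_left] at h2
      have h3 : g = g * (Int.gcd X Y : ℤ) := by
        calc g = (Int.gcd (2 ^ k * x) y : ℤ) := hg
          _ = ((g.natAbs * Int.gcd X Y : ℕ) : ℤ) := h2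
          _ = g * (Int.gcd X Y : ℤ) := by
            push_cast
            rw [abs_of_pos hgpos]
      have h4 : (1 : ℤ) = (Int.gcd X Y : ℤ) :=
        mul_left_cancel₀ hg0 (by rw [mul_one]; exact h3)
      exact_mod_cast h4.symm
    exact Int.isCoprime_iff_gcd_eq_one.2 h1
  have hY0 : Y ≠ 0 := by
    rintro rfl
    rw [mul_zero] at hY
    exact hy hY
  have e1 : g ^ 2 * (X ^ 2 - 4 ^ k * m * Y ^ 2) = 4 ^ k * (x ^ 2 - m * y ^ 2) := by
    have h4 : (4 : ℤ) ^ k = (2 ^ k) ^ 2 := by rw [← pow_mul, mul_comm, pow_mul]; norm_num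
    calc g ^ 2 * (X ^ 2 - 4 ^ k * m * Y ^ 2) = (g * X) ^ 2 - 4 ^ k * m * (g * Y) ^ 2 := by ring
      _ = (2 ^ k * x) ^ 2 - 4 ^ k * m * y ^ 2 := by rw [← hX, ← hY]
      _ = _ := by rw [mul_pow, ← h4]; ring
  have h4k : (4 : ℤ) ^ k ≠ 0 := pow_ne_zero _ (by norm_num)
  have hW0 : X ^ 2 - 4 ^ k * m * Y ^ 2 ≠ 0 := by
    intro h0
    rw [h0, mul_zero] at e1
    exact mul_ne_zero h4k hw e1.symm
  have h1 := hκ X Y hXY (mul_ne_zero hY0 hW0)
  have hR : R (Y * (X ^ 2 - 4 ^ k * m * Y ^ 2)).natAbs ≤ R (y * (x ^ 2 - m * y ^ 2)).natAbs * 2 := by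
    apply R_bound (Int.natAbs_ne_zero.2 hne) (by norm_num)
    intro p hp hpd
    have hpp : Prime (p : ℤ) := Nat.prime_iff_prime_int.1 hp
    have h2 : (p : ℤ) ∣ Y * (X ^ 2 - 4 ^ k * m * Y ^ 2) := Int.natCast_dvd.2 hpd
    have h3 : (p : ℤ) ∣ y * (x ^ 2 - m * y ^ 2) * 2 ∨ (p : ℤ) ∣ 2 := by
      rcases hpp.dvd_mul.1 h2 with h3 | h3
      · left
        rw [hY]
        exact ((h3.mul_left g).mul_right _).mul_right _
      · have h4 : (p : ℤ) ∣ 4 ^ k * (x ^ 2 - m * y ^ 2) := by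
          rw [← e1]; exact h3.mul_left _
        rcases hpp.dvd_mul.1 h4 with h5 | h5
        · right
          have h6 := hpp.dvd_of_dvd_pow h5
          have h7 : (p : ℤ) ∣ 2 ^ 2 := by norm_num; exact h6
          exact hpp.dvd_of_dvd_pow h7
        · left
          exact (h5.mul_left y).mul_right _
    have h4 : (p : ℤ) ∣ y * (x ^ 2 - m * y ^ 2) * 2 := by
      rcases h3 with h3 | h3
      · exact h3
      · exact h3.mul_left _
    have h5 : p ∣ (y * (x ^ 2 - m * y ^ 2) * 2).natAbs := Int.natCast_dvd.1 h4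
    rw [Int.natAbs_mul] at h5
    exact h5
  have hRR : (R (Y * (X ^ 2 - 4 ^ k * m * Y ^ 2)).natAbs : ℝ) ≤
      R (y * (x ^ 2 - m * y ^ 2)).natAbs * 2 := by exact_mod_cast hR
  have hgR : (g : ℝ) ≤ 2 ^ k := by exact_mod_cast hgle
  have hgR0 : (0 : ℝ) < g := by exact_mod_cast hgpos
  have hmax : max |(x : ℝ)| |(y : ℝ)| ≤ 2 ^ k * max |(X : ℝ)| |(Y : ℝ)| := by
    have hx' : |(x : ℝ)| ≤ 2 ^ k * |(X : ℝ)| := by
      have h2 : (2 : ℝ) ^ k * x = g * X := by exact_mod_cast hX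
      have h3 : (2 : ℝ) ^ k * |(x : ℝ)| = g * |(X : ℝ)| := by
        rw [← abs_of_pos (show (0 : ℝ) < 2 ^ k by positivity), ← abs_mul, h2, abs_mul, abs_of_pos hgR0]
      have h4 : |(x : ℝ)| ≤ (2 : ℝ) ^ k * |(x : ℝ)| :=
        le_mul_of_one_le_left (abs_nonneg _) (one_le_pow₀ (by norm_num))
      calc |(x : ℝ)| ≤ _ := h4
        _ = g * |(X : ℝ)| := h3
        _ ≤ _ := mul_le_mul_of_nonneg_right hgR (abs_nonneg _)
    have hy' : |(y : ℝ)| ≤ 2 ^ k * |(Y : ℝ)| := by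
      have h2 : (y : ℝ) = g * Y := by exact_mod_cast hY
      rw [h2, abs_mul, abs_of_pos hgR0]
      exact mul_le_mul_of_nonneg_right hgR (abs_nonneg _)
    refine max_le (hx'.trans ?_) (hy'.trans ?_)
    · exact mul_le_mul_of_nonneg_left (le_max_left _ _) (by positivity)
    · exact mul_le_mul_of_nonneg_left (le_max_right _ _) (by positivity)
  calc max |(x : ℝ)| |(y : ℝ)| ≤ 2 ^ k * max |(X : ℝ)| |(Y : ℝ)| := hmax
    _ ≤ 2 ^ k * (max κ 1 * (R (Y * (X ^ 2 - 4 ^ k * m * Y ^ 2)).natAbs : ℝ) ^ (1 + ε)) := by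
        apply mul_le_mul_of_nonneg_left _ (by positivity)
        exact h1.trans (mul_le_mul_of_nonneg_right (le_max_left _ _)
          (Real.rpow_nonneg (Nat.cast_nonneg _) _))
    _ ≤ 2 ^ k * (max κ 1 * (R (y * (x ^ 2 - m * y ^ 2)).natAbs * 2 : ℝ) ^ (1 + ε)) := by
        apply mul_le_mul_of_nonneg_left _ (by positivity)
        apply mul_le_mul_of_nonneg_left _ (le_trans zero_le_one (le_max_right _ _))
        exact Real.rpow_le_rpow (Nat.cast_nonneg _) hRR (by linarith)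
    _ = _ := by
        rw [Real.mul_rpow (Nat.cast_nonneg _) (by norm_num)]
        ring

theorem three_iff (D m : ℤ) (k : ℕ) (hm : Odd m) (hD : D = 4 ^ k * m) :
    ThreePoints D ↔ ABC fun _ _ _ => True := by
  have hm0 : m ≠ 0 := by rintro rfl; exact absurd hm (by decide)
  refine ⟨fun h => ?_, fun h => ?_⟩
  · rw [hD] at h
    exact abc_of_three m hm (three_scale m k h)
  · refine three_of_abc D ?_ h
    rw [hD]
    exact mul_ne_zero (pow_ne_zero _ (by norm_num)) hm0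

theorem pell_scale_iff (D m : ℤ) (k : ℕ) (hm : Odd m) (hD : D = 4 ^ k * m) (n : ℕ) (hn : 1 ≤ n) (N r : ℕ)
    (hN : 1 ≤ N) (δ : ℝ) (hδ : 0 < δ) (Y : ℕ → ℝ) (hY : ∀ i, 1 < Y i) (hYt : Tendsto Y atTop atTop)
    (hYr : ∀ i, Y (i + 1) ≤ (Y i) ^ r) :
    (ABC fun a b c => Pell D n a b c ∧ N ∣ a ∧ (a : ℝ) ≤ δ * c ∧
      ∃ i, Y i ≤ c ∧ (c : ℝ) ≤ (Y i) ^ (1 + δ)) ↔ ABC fun _ _ _ => True := by
  have hm0 : m ≠ 0 := by rintro rfl; exact absurd hm (by decide)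
  refine ⟨fun h => ?_, fun h ε hε => ?_⟩
  · have hN' : 1 ≤ N * (4 ^ k * m.natAbs) := by
      have := Int.natAbs_pos.2 hm0
      have : 0 < N * (4 ^ k * m.natAbs) := by positivity
      omega
    refine (pell_iff m hm n hn (N * (4 ^ k * m.natAbs)) r hN' δ hδ Y hY hYt hYr).1 ?_
    intro ε hε
    obtain ⟨κ, hκ⟩ := h ε hε
    refine ⟨κ, fun a b c ha hb hab habc hT => hκ a b c ha hb hab habc ?_⟩
    obtain ⟨⟨x, y, z, h1, h2, h3⟩, h4, h5, h6⟩ := hT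
    refine ⟨?_, dvd_of_mul_right_dvd h4, h5, h6⟩
    have hy2 : (2 ^ k : ℤ) ∣ y := by
      have h7 : ((4 ^ k * m.natAbs : ℕ) : ℤ) ∣ (a : ℤ) :=
        Int.natCast_dvd_natCast.2 (dvd_of_mul_left_dvd h4)
      rw [h2] at h7
      push_cast at h7
      rw [mul_comm] at h7
      have h8 : (4 : ℤ) ^ k ∣ y ^ 2 := by
        have := Int.dvd_of_mul_dvd_mul_left (abs_ne_zero.2 hm0) h7
        exact this
      have h9 : (4 : ℤ) ^ k = (2 ^ k) ^ 2 := by rw [← pow_mul, mul_comm, pow_mul]; norm_num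
      rw [h9] at h8
      exact (Int.pow_dvd_pow_iff (by norm_num)).1 h8
    obtain ⟨w, hw⟩ := hy2
    have h9 : (4 : ℤ) ^ k = (2 ^ k) ^ 2 := by rw [← pow_mul, mul_comm, pow_mul]; norm_num
    refine ⟨x, w, z, ?_, ?_, h3⟩
    · rw [← h1, hD, hw, h9]; ring
    · rw [h2, hD, hw, abs_mul, abs_of_pos (show (0 : ℤ) < 4 ^ k by positivity), h9]; ring
  · obtain ⟨κ, hκ⟩ := h ε hε
    exact ⟨κ, fun a b c ha hb hab habc _ => hκ a b c ha hb hab habc trivial⟩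

end Pool.Agent.N746.Tw
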